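import Mathlib

set_option autoImplicit false

/-!
# A box theorem for grids with `k` points in every direction
-/

namespace Pool.Agent.Y918.QC

open Finset

open Classical in
/-- A set in a product without a nondegenerate grid is small. -/
theorem boxk {X : Type*} (K : ℕ) (θ : ℝ) (hθ0 : 0 < θ) (hθ1 : θ ≤ 1) :
    ∀ (G : ℕ) (A : Fin G → Finset X) (bad : Fin G → (Fin (K + 1) → X) → Prop),
      (∀ g, (((Fintype.piFinset fun _ : Fin (K + 1) => A g).filter (bad g)).card : ℝ) ≤
        θ * ((A g).card : ℝ) ^ (K + 1)) →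
      ∀ B : Finset (Fin G → X), B ⊆ Fintype.piFinset A →
      (∀ x : Fin G → Fin (K + 1) → X, (∀ g i, x g i ∈ A g) → (∀ g, ¬ bad g (x g)) →
        ¬ ∀ η : Fin G → Fin (K + 1), (fun g => x g (η g)) ∈ B) →
      (B.card : ℝ) ≤ G * θ ^ ((1 / (K + 1 : ℝ)) ^ G) * ∏ g, ((A g).card : ℝ) := by
  intro G
  induction G with
  | zero =>
    intro A bad _ B _ hgrid
    have hB : B = ∅ := by
      rw [Finset.eq_empty_iff_forall_notMem]
      intro b hb
      apply hgrid (fun g => g.elim0) (fun g => g.elim0) (fun g => g.elim0)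
      intro η
      have : (fun g : Fin 0 => (g.elim0 : Fin (K + 1) → X) (η g)) = b := Subsingleton.elim _ _
      convert hb
    rw [hB]
    simp
  | succ G ih =>
    intro A bad hbad B hB hgrid
    set Y : Finset (Fin G → X) := Fintype.piFinset (fun g => A g.succ) with hY
    set a : ℝ := ((A 0).card : ℝ) with ha
    set c : ℝ := ∏ g : Fin G, ((A g.succ).card : ℝ) with hc
    have ha0 : 0 ≤ a := Nat.cast_nonneg _
    have hc0 : 0 ≤ c := Finset.prod_nonneg fun g _ => Nat.cast_nonneg _
    have hYc : (Y.card : ℝ) = c := by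
      rw [hY, Fintype.card_piFinset]
      push_cast
      rfl
    let Bu : (Fin (K + 1) → X) → Finset (Fin G → X) := fun x =>
      Y.filter (fun y => ∀ i, (Fin.cons (x i) y : Fin (G + 1) → X) ∈ B)
    let n : (Fin G → X) → ℕ := fun y =>
      ((A 0).filter (fun u => (Fin.cons u y : Fin (G + 1) → X) ∈ B)).card
    have hcard : B.card = ∑ y ∈ Y, n y := by
      have h1 : B = (Y.sigma (fun y => (A 0).filter (fun u => (Fin.cons u y : Fin (G + 1) → X) ∈ B))).image
          (fun p : (_ : Fin G → X) × X => (Fin.cons p.2 p.1 : Fin (G + 1) → X)) := by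
        ext b
        rw [Finset.mem_image]
        constructor
        · intro hb
          have hb' := Fintype.mem_piFinset.1 (hB hb)
          refine ⟨⟨Fin.tail b, b 0⟩, ?_, Fin.cons_self_tail b⟩
          rw [Finset.mem_sigma, Finset.mem_filter, hY, Fintype.mem_piFinset]
          refine ⟨fun g => hb' g.succ, hb' 0, ?_⟩
          simp only [Fin.cons_self_tail]
          exact hb
        · rintro ⟨p, hp, rfl⟩
          rw [Finset.mem_sigma, Finset.mem_filter] at hp
          exact hp.2.2
      rw [h1, Finset.card_image_of_injOn, Finset.card_sigma]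
      intro p _ q _ hpq
      have h2 := Fin.cons_inj.1 hpq
      rcases p with ⟨p1, p2⟩
      rcases q with ⟨q1, q2⟩
      simp only at h2
      obtain ⟨rfl, rfl⟩ := h2
      rfl
    set A0 : Finset (Fin (K + 1) → X) := Fintype.piFinset fun _ : Fin (K + 1) => A 0 with hA0
    have hA0c : (A0.card : ℝ) = a ^ (K + 1) := by
      rw [hA0, Fintype.card_piFinset_const]
      push_cast
      rfl
    -- the sum of powers
    have hsq : ∑ y ∈ Y, (n y : ℝ) ^ (K + 1) = ∑ x ∈ A0, ((Bu x).card : ℝ) := by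
      have h1 : ∀ y, (n y : ℝ) ^ (K + 1) = ∑ x ∈ A0,
          if (∀ i, (Fin.cons (x i) y : Fin (G + 1) → X) ∈ B) then (1 : ℝ) else 0 := by
        intro y
        have h2 : (Fintype.piFinset fun _ : Fin (K + 1) =>
            (A 0).filter (fun u => (Fin.cons u y : Fin (G + 1) → X) ∈ B)) =
            A0.filter (fun x => ∀ i, (Fin.cons (x i) y : Fin (G + 1) → X) ∈ B) := by
          ext x
          rw [Finset.mem_filter, Fintype.mem_piFinset, hA0, Fintype.mem_piFinset]
          constructor
          · intro h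
            exact ⟨fun i => (Finset.mem_filter.1 (h i)).1, fun i => (Finset.mem_filter.1 (h i)).2⟩
          · rintro ⟨h, h'⟩ i
            exact Finset.mem_filter.2 ⟨h i, h' i⟩
        rw [← Finset.sum_filter, ← h2, Finset.sum_const, nsmul_eq_mul, mul_one,
          Fintype.card_piFinset_const]
        push_cast
        rfl
      rw [Finset.sum_congr rfl (fun y _ => h1 y), Finset.sum_comm]
      refine Finset.sum_congr rfl fun x _ => ?_
      rw [← Finset.sum_filter, Finset.sum_const, nsmul_eq_mul, mul_one]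
    obtain ⟨Q, hQ⟩ : ∃ Q : ℝ, Q = G * θ ^ ((1 / (K + 1 : ℝ)) ^ G) := ⟨_, rfl⟩
    have hQ0 : 0 ≤ Q := by
      rw [hQ]
      positivity
    rw [← hQ] at ih
    have hle : ∀ x ∈ A0, ((Bu x).card : ℝ) ≤ (if bad 0 x then c else 0) + Q * c := by
      intro x hx
      rw [hA0, Fintype.mem_piFinset] at hx
      by_cases h0 : bad 0 x
      · rw [if_pos h0]
        have h1 : ((Bu x).card : ℝ) ≤ c := by
          rw [← hYc]
          exact_mod_cast Finset.card_le_card (Finset.filter_subset _ _)
        have : 0 ≤ Q * c := mul_nonneg hQ0 hc0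
        linarith
      · rw [if_neg h0, zero_add]
        apply ih (fun g => A g.succ) (fun g => bad g.succ) (fun g => hbad g.succ) (Bu x)
          (Finset.filter_subset _ _)
        intro v hv hvb hall
        have e1 : ∀ g : Fin (G + 1), ∀ i,
            (Fin.cons x v : Fin (G + 1) → Fin (K + 1) → X) g i ∈ A g := by
          intro g
          refine Fin.cases (motive := fun g => ∀ i,
            (Fin.cons x v : Fin (G + 1) → Fin (K + 1) → X) g i ∈ A g) ?_ (fun g => ?_) g
          · exact fun i => hx i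
          · exact fun i => hv g i
        have e2 : ∀ g : Fin (G + 1),
            ¬ bad g ((Fin.cons x v : Fin (G + 1) → Fin (K + 1) → X) g) := by
          intro g
          refine Fin.cases (motive := fun g =>
            ¬ bad g ((Fin.cons x v : Fin (G + 1) → Fin (K + 1) → X) g)) ?_ (fun g => ?_) g
          · exact h0
          · exact hvb g
        apply hgrid (Fin.cons x v) e1 e2
        intro η
        have h1 := (Finset.mem_filter.1 (hall (fun g => η g.succ))).2 (η 0)
        have h2 : (fun g => (Fin.cons x v : Fin (G + 1) → Fin (K + 1) → X) g (η g)) =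
            (Fin.cons (x (η 0)) (fun g => v g (η g.succ)) : Fin (G + 1) → X) := by
          funext g
          refine Fin.cases (motive := fun g =>
            (Fin.cons x v : Fin (G + 1) → Fin (K + 1) → X) g (η g) =
            (Fin.cons (x (η 0)) (fun g => v g (η g.succ)) : Fin (G + 1) → X) g) ?_ (fun g => ?_) g
          · rfl
          · rfl
        rw [h2]
        exact h1
    have hsum : ∑ x ∈ A0, ((Bu x).card : ℝ) ≤ a ^ (K + 1) * c * (θ + Q) := by
      refine (Finset.sum_le_sum hle).trans ?_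
      rw [Finset.sum_add_distrib, ← Finset.sum_filter, Finset.sum_const, Finset.sum_const,
        nsmul_eq_mul, nsmul_eq_mul, hA0c]
      have h1 := hbad 0
      have h2 : (((A0.filter (bad 0)).card : ℕ) : ℝ) * c ≤ (θ * a ^ (K + 1)) * c :=
        mul_le_mul_of_nonneg_right h1 hc0
      nlinarith
    have hcs : (B.card : ℝ) ^ (K + 1) ≤ c ^ K * ∑ y ∈ Y, (n y : ℝ) ^ (K + 1) := by
      rw [hcard, ← hYc]
      push_cast
      exact pow_sum_le_card_mul_sum_pow (fun i _ => Nat.cast_nonneg _) K
    rw [hsq] at hcs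
    have hKpos : (0 : ℝ) < K + 1 := by positivity
    have hε1 : 1 / (K + 1 : ℝ) ≤ 1 := by
      rw [div_le_one hKpos]
      have : (0 : ℝ) ≤ K := Nat.cast_nonneg _
      linarith
    obtain ⟨R, hR⟩ : ∃ R : ℝ, R = θ ^ ((1 / (K + 1 : ℝ)) ^ G) := ⟨_, rfl⟩
    obtain ⟨R', hR'⟩ : ∃ R' : ℝ, R' = θ ^ ((1 / (K + 1 : ℝ)) ^ (G + 1)) := ⟨_, rfl⟩
    rw [← hR] at hQ
    rw [← hR']
    have hθR : θ ≤ R := by
      have h1 : ((1 / (K + 1 : ℝ)) ^ G) ≤ 1 := pow_le_one₀ (by positivity) hε1
      calc θ = θ ^ (1 : ℝ) := (Real.rpow_one θ).symm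
        _ ≤ R := by
          rw [hR]
          exact Real.rpow_le_rpow_of_exponent_ge hθ0 hθ1 h1
    have hR0 : 0 ≤ R := by
      rw [hR]
      exact Real.rpow_nonneg hθ0.le _
    have hR'0 : 0 ≤ R' := by
      rw [hR']
      exact Real.rpow_nonneg hθ0.le _
    have hRR : R = R' ^ (K + 1) := by
      rw [hR, hR', ← Real.rpow_natCast (θ ^ _) (K + 1), ← Real.rpow_mul hθ0.le]
      congr 1
      rw [pow_succ]
      push_cast
      field_simp
    have hac : 0 ≤ a * c := mul_nonneg ha0 hc0
    clear hgrid hbad ih hle hcard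
    have h5 : (B.card : ℝ) ^ (K + 1) ≤ (((G + 1 : ℕ) : ℝ) * R' * (a * c)) ^ (K + 1) := by
      have h6 : (B.card : ℝ) ^ (K + 1) ≤ c ^ K * (a ^ (K + 1) * c * (θ + Q)) :=
        hcs.trans (mul_le_mul_of_nonneg_left hsum (pow_nonneg hc0 _))
      have h7 : c ^ K * (a ^ (K + 1) * c * (θ + Q)) = (θ + Q) * (a * c) ^ (K + 1) := by ring
      have h12 : (1 : ℝ) ≤ ((G + 1 : ℕ) : ℝ) := by
        push_cast
        have := (Nat.cast_nonneg G : (0 : ℝ) ≤ G)
        linarith
      have h8 : θ + Q ≤ ((G + 1 : ℕ) : ℝ) ^ (K + 1) * R' ^ (K + 1) := by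
        rw [← hRR]
        have h9 : θ + Q ≤ ((G + 1 : ℕ) : ℝ) * R := by
          rw [hQ]
          push_cast
          linarith
        refine h9.trans ?_
        have h11 : ((G + 1 : ℕ) : ℝ) ≤ ((G + 1 : ℕ) : ℝ) ^ (K + 1) := by
          calc ((G + 1 : ℕ) : ℝ) = ((G + 1 : ℕ) : ℝ) ^ 1 := (pow_one _).symm
            _ ≤ _ := pow_le_pow_right₀ h12 (Nat.succ_le_succ (Nat.zero_le K))
        exact mul_le_mul_of_nonneg_right h11 hR0
      calc (B.card : ℝ) ^ (K + 1) ≤ (θ + Q) * (a * c) ^ (K + 1) := by rw [← h7]; exact h6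
        _ ≤ (((G + 1 : ℕ) : ℝ) ^ (K + 1) * R' ^ (K + 1)) * (a * c) ^ (K + 1) :=
            mul_le_mul_of_nonneg_right h8 (pow_nonneg hac _)
        _ = (((G + 1 : ℕ) : ℝ) * R' * (a * c)) ^ (K + 1) := by
            rw [mul_pow (((G + 1 : ℕ) : ℝ) * R') (a * c), mul_pow ((G + 1 : ℕ) : ℝ) R']
    have h6 := le_of_pow_le_pow_left₀ (Nat.succ_ne_zero K)
      (mul_nonneg (mul_nonneg (Nat.cast_nonneg _) hR'0) hac) h5
    rw [Fin.prod_univ_succ]
    exact h6

end Pool.Agent.Y918.QC
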