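import Mathlib

set_option autoImplicit false

/-!
# Subspaces without rational vectors and their conjugates

`E / F` is a finite Galois extension, `K` a subspace of `E ^ I` without nonzero rational vectors.
A subspace of small codimension lies in few of the conjugates of `K`.
-/

namespace Pool.Agent.Y918.QC

open Finset Module

variable {F E : Type*} [Field F] [Field E] [Algebra F E]

/-- The action of the Galois group on vectors. -/
def act {I : Type*} (σ : E ≃ₐ[F] E) (v : I → E) : I → E := fun i => σ (v i)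

theorem act_apply {I : Type*} (σ : E ≃ₐ[F] E) (v : I → E) (i : I) : act σ v i = σ (v i) := rfl

theorem act_mul {I : Type*} (σ τ : E ≃ₐ[F] E) (v : I → E) : act (σ * τ) v = act σ (act τ v) := rfl

theorem act_one {I : Type*} (v : I → E) : act (1 : E ≃ₐ[F] E) v = v := rfl

theorem act_add {I : Type*} (σ : E ≃ₐ[F] E) (v w : I → E) : act σ (v + w) = act σ v + act σ w := by
  funext i
  simp [act]

theorem act_smul {I : Type*} (σ : E ≃ₐ[F] E) (c : E) (v : I → E) :
    act σ (c • v) = σ c • act σ v := by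
  funext i
  simp [act]

theorem act_zero {I : Type*} (σ : E ≃ₐ[F] E) : act σ (0 : I → E) = 0 := by
  funext i
  simp [act]

/-- The preimage of a subspace under the action of an automorphism. -/
def comapAct {I : Type*} (σ : E ≃ₐ[F] E) (K : Submodule E (I → E)) : Submodule E (I → E) where
  carrier := {v | act σ v ∈ K}
  add_mem' := by
    intro a b ha hb
    change act σ (a + b) ∈ K
    rw [act_add]
    exact K.add_mem ha hb
  zero_mem' := by
    change act σ 0 ∈ K
    rw [act_zero]
    exact K.zero_mem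
  smul_mem' := by
    intro c v hv
    change act σ (c • v) ∈ K
    rw [act_smul]
    exact K.smul_mem _ hv

theorem mem_comapAct {I : Type*} (σ : E ≃ₐ[F] E) (K : Submodule E (I → E)) (v : I → E) :
    v ∈ comapAct σ K ↔ act σ v ∈ K := Iff.rfl

/-- No nonzero rational vectors. -/
def NoRat (F : Type*) {E : Type*} [Field F] [Field E] [Algebra F E] {I : Type*}
    (K : Submodule E (I → E)) : Prop :=
  ∀ q : I → F, (fun i => algebraMap F E (q i)) ∈ K → q = 0

/-- A vector all of whose conjugates lie in a subspace without rational vectors is zero. -/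
theorem eq_zero_of_forall [FiniteDimensional F E] [IsGalois F E] [CharZero F] {I : Type*}
    {K : Submodule E (I → E)} (hK : NoRat F K) (v : I → E)
    (h : ∀ σ : E ≃ₐ[F] E, act σ v ∈ K) : v = 0 := by
  classical
  by_contra hv
  obtain ⟨i0, hi0⟩ : ∃ i, v i ≠ 0 := by
    by_contra hcon
    push Not at hcon
    exact hv (funext hcon)
  -- all conjugates of multiples of `v` lie in `K`
  have h1 : ∀ (c : E) (σ : E ≃ₐ[F] E), act σ (c • v) ∈ K := by
    intro c σ
    rw [act_smul]
    exact K.smul_mem _ (h σ)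
  set v' : I → E := (v i0)⁻¹ • v with hv'
  have hv'1 : v' i0 = 1 := by
    rw [hv', Pi.smul_apply, smul_eq_mul, inv_mul_cancel₀ hi0]
  have h2 : (fun i => algebraMap F E (Algebra.trace F E (v' i))) ∈ K := by
    have h3 : (fun i => algebraMap F E (Algebra.trace F E (v' i))) =
        ∑ σ : E ≃ₐ[F] E, act σ v' := by
      funext i
      rw [Finset.sum_apply, trace_eq_sum_automorphisms]
      rfl
    rw [h3]
    exact K.sum_mem fun σ _ => h1 _ σ
  have h4 := congrFun (hK _ h2) i0
  rw [hv'1, Pi.zero_apply] at h4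
  have h5 : Algebra.trace F E (1 : E) = (finrank F E : F) := by
    have := Algebra.trace_algebraMap (R := F) (S := E) (1 : F)
    rw [map_one] at this
    rw [this]
    simp
  rw [h5] at h4
  have h6 : 0 < finrank F E := finrank_pos
  exact (Nat.cast_ne_zero.2 h6.ne') h4

variable [FiniteDimensional F E]

open Classical in
/-- The automorphisms which move a vector out of a subspace. -/
noncomputable def mov {I : Type*} (K : Submodule E (I → E)) (v : I → E) : Finset (E ≃ₐ[F] E) :=
  univ.filter fun ρ => act ρ v ∉ K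

/-- Many conjugates of a nonzero vector lie outside of a subspace without rational vectors. -/
theorem card_le_mov [IsGalois F E] [CharZero F] {I : Type*} [Fintype I]
    {K : Submodule E (I → E)} (hK : NoRat F K) (v : I → E) (hv : v ≠ 0) :
    Fintype.card (E ≃ₐ[F] E) ≤ Fintype.card I * (mov (F := F) K v).card := by
  classical
  obtain ⟨T, hTsub, hTspan, hTli⟩ := exists_linearIndependent E
    (Set.range fun γ : E ≃ₐ[F] E => act γ v)
  have hTfin : T.Finite := hTli.setFinite
  have hTcard : hTfin.toFinset.card ≤ Fintype.card I := by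
    have := hTfin.fintype
    have h1 := hTli.fintype_card_le_finrank
    rw [Module.finrank_fintype_fun_eq_card] at h1
    rw [← Set.toFinset_card] at h1
    convert h1 using 2
    ext x
    simp
  have hch : ∀ x ∈ T, ∃ γ : E ≃ₐ[F] E, act γ v = x := fun x hx => hTsub hx
  choose! γ hγ using hch
  -- the translates cover
  have hcov : ∀ ρ : E ≃ₐ[F] E, ∃ x ∈ T, act ρ x ∉ K := by
    intro ρ
    by_contra hcon
    push Not at hcon
    have h1 : Submodule.span E T ≤ comapAct ρ K := by
      rw [Submodule.span_le]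
      intro x hx
      exact hcon x hx
    rw [hTspan] at h1
    apply hv
    apply eq_zero_of_forall hK v
    intro σ
    have h2 : act (ρ⁻¹ * σ) v ∈ comapAct ρ K := h1 (Submodule.subset_span ⟨_, rfl⟩)
    rw [mem_comapAct, ← act_mul, mul_inv_cancel_left] at h2
    exact h2
  have h3 : (univ : Finset (E ≃ₐ[F] E)) ⊆ hTfin.toFinset.biUnion
      (fun x => univ.filter fun ρ => act ρ x ∉ K) := by
    intro ρ _
    obtain ⟨x, hx, hρ⟩ := hcov ρ
    rw [Finset.mem_biUnion]
    exact ⟨x, by simpa using hx, by simpa using hρ⟩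
  have h4 : ∀ x ∈ hTfin.toFinset, (univ.filter fun ρ : E ≃ₐ[F] E => act ρ x ∉ K).card ≤
      (mov (F := F) K v).card := by
    intro x hx
    have hx' : x ∈ T := by simpa using hx
    apply Finset.card_le_card_of_injOn (fun ρ => ρ * γ x)
    · intro ρ hρ
      rw [Finset.mem_coe, Finset.mem_filter] at hρ
      rw [Finset.mem_coe, mov, Finset.mem_filter]
      refine ⟨Finset.mem_univ _, ?_⟩
      change act (ρ * γ x) v ∉ K
      rw [act_mul, hγ x hx']
      exact hρ.2
    · intro a _ b _ hab
      exact mul_right_cancel hab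
  calc Fintype.card (E ≃ₐ[F] E) = (univ : Finset (E ≃ₐ[F] E)).card := rfl
    _ ≤ _ := Finset.card_le_card h3
    _ ≤ ∑ x ∈ hTfin.toFinset, (univ.filter fun ρ : E ≃ₐ[F] E => act ρ x ∉ K).card :=
        Finset.card_biUnion_le
    _ ≤ ∑ x ∈ hTfin.toFinset, (mov (F := F) K v).card := Finset.sum_le_sum h4
    _ = hTfin.toFinset.card * (mov (F := F) K v).card := by rw [Finset.sum_const, smul_eq_mul]
    _ ≤ _ := Nat.mul_le_mul_right _ hTcard

/-- Translates of a set cover most of a finite group. -/
theorem exists_translates {Γ : Type*} [Group Γ] [Fintype Γ] [DecidableEq Γ] (H : Finset Γ) (p : ℕ) :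
    ∃ γ : Fin p → Γ, (univ.filter fun ρ : Γ => ∀ i, ρ * γ i ∉ H).card * Fintype.card Γ ^ p ≤
      Fintype.card Γ * (Fintype.card Γ - H.card) ^ p := by
  induction p with
  | zero =>
    refine ⟨Fin.elim0, ?_⟩
    simp
  | succ p ih =>
    obtain ⟨γ, hγ⟩ := ih
    set Y := univ.filter fun ρ : Γ => ∀ i, ρ * γ i ∉ H with hY
    -- double counting
    have h1 : ∑ x : Γ, (Y.filter fun ρ => ρ * x ∉ H).card = Y.card * (Fintype.card Γ - H.card) := by
      simp_rw [Finset.card_filter]
      rw [Finset.sum_comm]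
      have h2 : ∀ ρ ∈ Y, ∑ x : Γ, (if ρ * x ∉ H then 1 else 0) = Fintype.card Γ - H.card := by
        intro ρ _
        rw [← Finset.card_filter]
        have h3 : (univ.filter fun x : Γ => ρ * x ∉ H).card = (univ \ H).card := by
          apply Finset.card_bij (fun x _ => ρ * x)
          · intro x hx
            rw [Finset.mem_filter] at hx
            simpa using hx.2
          · intro a _ b _ hab
            exact mul_left_cancel hab
          · intro b hb
            refine ⟨ρ⁻¹ * b, ?_, by simp⟩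
            rw [Finset.mem_filter]
            simpa using hb
        rw [h3, Finset.card_sdiff_of_subset (Finset.subset_univ _), Finset.card_univ]
      rw [Finset.sum_congr rfl h2, Finset.sum_const, smul_eq_mul]
    have hne : (univ : Finset Γ).Nonempty := ⟨1, Finset.mem_univ _⟩
    obtain ⟨x, -, hx⟩ := Finset.exists_le_of_sum_le (s := (univ : Finset Γ))
      (f := fun x => (Y.filter fun ρ => ρ * x ∉ H).card * Fintype.card Γ)
      (g := fun _ => Y.card * (Fintype.card Γ - H.card)) hne (by
        rw [← Finset.sum_mul, h1, Finset.sum_const, smul_eq_mul, Finset.card_univ]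
        exact le_of_eq (by ring))
    refine ⟨Fin.cons x γ, ?_⟩
    have h5 : (univ.filter fun ρ : Γ => ∀ i, ρ * (Fin.cons x γ : Fin (p + 1) → Γ) i ∉ H) =
        Y.filter fun ρ => ρ * x ∉ H := by
      ext ρ
      simp only [hY, Finset.mem_filter, Finset.mem_univ, true_and, Fin.forall_fin_succ,
        Fin.cons_zero, Fin.cons_succ]
      exact and_comm
    rw [h5]
    calc (Y.filter fun ρ => ρ * x ∉ H).card * Fintype.card Γ ^ (p + 1)
        = ((Y.filter fun ρ => ρ * x ∉ H).card * Fintype.card Γ) * Fintype.card Γ ^ p := by ring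
      _ ≤ (Y.card * (Fintype.card Γ - H.card)) * Fintype.card Γ ^ p := Nat.mul_le_mul_right _ hx
      _ = (Y.card * Fintype.card Γ ^ p) * (Fintype.card Γ - H.card) := by ring
      _ ≤ (Fintype.card Γ * (Fintype.card Γ - H.card) ^ p) * (Fintype.card Γ - H.card) :=
          Nat.mul_le_mul_right _ hγ
      _ = _ := by ring

/-- A homogeneous system with more unknowns than equations. -/
theorem exists_kernel {I J : Type*} [Fintype I] [Fintype J] (a : J → I → E)
    (h : Fintype.card J < Fintype.card I) : ∃ v : I → E, v ≠ 0 ∧ ∀ j, ∑ i, a j i * v i = 0 := by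
  classical
  let L : (I → E) →ₗ[E] (J → E) := Matrix.mulVecLin (Matrix.of a)
  have h1 : LinearMap.ker L ≠ ⊥ := by
    apply LinearMap.ker_ne_bot_of_finrank_lt
    rw [Module.finrank_fintype_fun_eq_card, Module.finrank_fintype_fun_eq_card]
    exact h
  obtain ⟨v, hv, hv0⟩ := (Submodule.ne_bot_iff _).1 h1
  refine ⟨v, hv0, fun j => ?_⟩
  have h2 := congrFun (LinearMap.mem_ker.1 hv) j
  simpa [L, Matrix.mulVec, dotProduct] using h2

open Classical in
/-- The automorphisms which move a subspace, given by `n` equations, into `K`. -/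
noncomputable def into {I : Type*} [Fintype I] {n : ℕ} (K : Submodule E (I → E))
    (a : Fin n → I → E) : Finset (E ≃ₐ[F] E) :=
  univ.filter fun ρ => ∀ c : I → E, (∀ j, ∑ i, a j i * c i = 0) → act ρ c ∈ K

theorem into_card [IsGalois F E] [CharZero F] {I : Type*} [Fintype I] {n p : ℕ}
    {K : Submodule E (I → E)} (hK : NoRat F K) (a : Fin n → I → E)
    (hp : p * n < Fintype.card I) :
    Fintype.card (E ≃ₐ[F] E) ^ p ≤ Fintype.card I *
      (Fintype.card (E ≃ₐ[F] E) - (into (F := F) K a).card) ^ p := by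
  classical
  obtain ⟨γ, hγ⟩ := exists_translates (into (F := F) K a) p
  -- a vector in the intersection
  obtain ⟨v, hv0, hv⟩ := exists_kernel (J := Fin p × Fin n)
    (fun q i => γ q.1 (a q.2 i)) (by
      rw [Fintype.card_prod, Fintype.card_fin, Fintype.card_fin]
      exact hp)
  have h1 : mov (F := F) K v ⊆ univ.filter fun ρ : E ≃ₐ[F] E => ∀ i, ρ * γ i ∉ into (F := F) K a := by
    intro ρ hρ
    rw [mov, Finset.mem_filter] at hρ
    rw [Finset.mem_filter]
    refine ⟨Finset.mem_univ _, fun i hi => ?_⟩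
    rw [into, Finset.mem_filter] at hi
    apply hρ.2
    have h2 := hi.2 (act (γ i)⁻¹ v) (by
      intro j
      have h3 := congrArg ((γ i)⁻¹ : E ≃ₐ[F] E) (hv (i, j))
      rw [map_sum, map_zero] at h3
      rw [← h3]
      refine Finset.sum_congr rfl fun l _ => ?_
      rw [map_mul, act_apply]
      congr 1
      exact ((γ i).symm_apply_apply (a j l)).symm)
    rw [← act_mul, mul_inv_cancel_right] at h2
    exact h2
  have h2 := card_le_mov hK v hv0
  have h3 := Finset.card_le_card h1
  have h4 : 0 < Fintype.card (E ≃ₐ[F] E) := Fintype.card_pos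
  have h5 : Fintype.card (E ≃ₐ[F] E) * Fintype.card (E ≃ₐ[F] E) ^ p ≤
      Fintype.card (E ≃ₐ[F] E) * (Fintype.card I *
        (Fintype.card (E ≃ₐ[F] E) - (into (F := F) K a).card) ^ p) := by
    calc Fintype.card (E ≃ₐ[F] E) * Fintype.card (E ≃ₐ[F] E) ^ p
        ≤ (Fintype.card I * (mov (F := F) K v).card) * Fintype.card (E ≃ₐ[F] E) ^ p :=
          Nat.mul_le_mul_right _ h2
      _ ≤ (Fintype.card I * (univ.filter fun ρ : E ≃ₐ[F] E =>
            ∀ i, ρ * γ i ∉ into (F := F) K a).card) * Fintype.card (E ≃ₐ[F] E) ^ p :=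
          Nat.mul_le_mul_right _ (Nat.mul_le_mul_left _ h3)
      _ = Fintype.card I * ((univ.filter fun ρ : E ≃ₐ[F] E =>
            ∀ i, ρ * γ i ∉ into (F := F) K a).card * Fintype.card (E ≃ₐ[F] E) ^ p) := by ring
      _ ≤ Fintype.card I * (Fintype.card (E ≃ₐ[F] E) *
            (Fintype.card (E ≃ₐ[F] E) - (into (F := F) K a).card) ^ p) :=
          Nat.mul_le_mul_left _ hγ
      _ = _ := by ring
  exact Nat.le_of_mul_le_mul_left h5 h4

/-- The necessary number of unknowns. -/
theorem exists_size (m G : ℕ) (hm : 0 < m) :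
    ∃ p : ℕ, ((m * p + 1 : ℕ) : ℝ) * (1 - 1 / (m * (G + 1) : ℝ)) ^ p < 1 := by
  set r : ℝ := 1 - 1 / (m * (G + 1) : ℝ) with hr
  have hm' : (1 : ℝ) ≤ m := by exact_mod_cast hm
  have hG' : (0 : ℝ) ≤ G := Nat.cast_nonneg _
  have hden : (1 : ℝ) ≤ m * (G + 1) := by nlinarith
  have hr0 : 0 ≤ r := by
    rw [hr, sub_nonneg, div_le_one (by linarith)]
    exact hden
  have hr1 : r < 1 := by
    rw [hr]
    have : 0 < 1 / ((m : ℝ) * (G + 1)) := by positivity
    linarith
  have h1 := tendsto_self_mul_const_pow_of_lt_one hr0 hr1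
  have h2 := tendsto_pow_atTop_nhds_zero_of_lt_one hr0 hr1
  have h3 : Filter.Tendsto (fun p : ℕ => (m : ℝ) * ((p : ℝ) * r ^ p) + r ^ p) Filter.atTop
      (nhds ((m : ℝ) * 0 + 0)) := (h1.const_mul _).add h2
  rw [mul_zero, add_zero] at h3
  obtain ⟨p, hp⟩ := (h3.eventually (gt_mem_nhds (zero_lt_one (α := ℝ)))).exists
  refine ⟨p, ?_⟩
  push_cast
  calc ((m : ℝ) * p + 1) * r ^ p = (m : ℝ) * ((p : ℝ) * r ^ p) + r ^ p := by ring
    _ < 1 := hp

/-- **A common good automorphism.** -/
theorem exists_good [IsGalois F E] [CharZero F] {G p m n : ℕ} (hn : n < m)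
    (hp : ((m * p + 1 : ℕ) : ℝ) * (1 - 1 / (m * (G + 1) : ℝ)) ^ p < 1)
    {S : Type*} [Fintype S] (hS : Fintype.card S = m) {I : Type*} [Fintype I]
    (hI : Fintype.card I = m * p + 1)
    {K₀ : Submodule E (S → E)} (hK₀ : NoRat F K₀) (a₀ : Fin n → S → E)
    (K : Fin G → Submodule E (I → E)) (hK : ∀ g, NoRat F (K g)) (a : Fin G → Fin n → I → E) :
    ∃ ρ : E ≃ₐ[F] E, (∃ c : S → E, (∀ j, ∑ i, a₀ j i * c i = 0) ∧ act ρ c ∉ K₀) ∧
      ∀ g, ∃ c : I → E, (∀ j, ∑ i, a g j i * c i = 0) ∧ act ρ c ∉ K g := by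
  classical
  obtain ⟨v, hv0, hv⟩ := exists_kernel (J := Fin n) a₀ (by
    rw [Fintype.card_fin, hS]
    exact hn)
  have h1 := card_le_mov hK₀ v hv0
  rw [hS] at h1
  set N := Fintype.card (E ≃ₐ[F] E) with hN
  have hNpos : 0 < N := Fintype.card_pos
  have hm : 0 < m := by omega
  have h2 : ∀ g, ((into (F := F) (K g) (a g)).card : ℝ) * (m * (G + 1)) < N := by
    intro g
    by_contra hcon
    push Not at hcon
    have h3 := into_card (p := p) (hK g) (a g) (by
      rw [hI]
      calc p * n ≤ p * m := Nat.mul_le_mul_left _ hn.le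
        _ < m * p + 1 := by rw [mul_comm]; exact Nat.lt_succ_self _)
    rw [← hN, hI] at h3
    have hle : (into (F := F) (K g) (a g)).card ≤ N := by
      rw [hN, ← Finset.card_univ]
      exact Finset.card_le_card (Finset.subset_univ _)
    have h4 : (N : ℝ) ^ p ≤ ((m * p + 1 : ℕ) : ℝ) * ((N : ℝ) - (into (F := F) (K g) (a g)).card) ^ p := by
      rw [← Nat.cast_sub hle]
      exact_mod_cast h3
    have hpos : (0 : ℝ) < m * (G + 1) := by positivity
    have h5 : (N : ℝ) - (into (F := F) (K g) (a g)).card ≤ N * (1 - 1 / (m * (G + 1) : ℝ)) := by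
      have h6 : (N : ℝ) / (m * (G + 1)) ≤ (into (F := F) (K g) (a g)).card := by
        rw [div_le_iff₀ hpos]
        exact hcon
      calc (N : ℝ) - (into (F := F) (K g) (a g)).card ≤ N - N / (m * (G + 1)) := by linarith
        _ = N * (1 - 1 / (m * (G + 1) : ℝ)) := by ring
    have h7 : (0 : ℝ) ≤ (N : ℝ) - (into (F := F) (K g) (a g)).card := by
      rw [sub_nonneg]
      exact_mod_cast hle
    have h8 : (N : ℝ) ^ p ≤ (N : ℝ) ^ p * (((m * p + 1 : ℕ) : ℝ) *
        (1 - 1 / (m * (G + 1) : ℝ)) ^ p) := by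
      calc (N : ℝ) ^ p ≤ _ := h4
        _ ≤ ((m * p + 1 : ℕ) : ℝ) * (N * (1 - 1 / (m * (G + 1) : ℝ))) ^ p := by
            apply mul_le_mul_of_nonneg_left _ (Nat.cast_nonneg _)
            exact pow_le_pow_left₀ h7 h5 p
        _ = _ := by rw [mul_pow]; ring
    have h9 : (0 : ℝ) < (N : ℝ) ^ p := by positivity
    nlinarith
  -- counting
  have h3 : ∃ ρ ∈ mov (F := F) K₀ v, ρ ∉ univ.biUnion fun g => into (F := F) (K g) (a g) := by
    apply Finset.exists_mem_notMem_of_card_lt_card
    have h4 : ((univ.biUnion fun g => into (F := F) (K g) (a g)).card : ℝ) ≤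
        ∑ g, ((into (F := F) (K g) (a g)).card : ℝ) := by
      exact_mod_cast Finset.card_biUnion_le
    have hpos : (0 : ℝ) < m * (G + 1) := by positivity
    have h5 : (∑ g, ((into (F := F) (K g) (a g)).card : ℝ)) * (m * (G + 1)) ≤ G * N := by
      rw [Finset.sum_mul]
      calc ∑ g, ((into (F := F) (K g) (a g)).card : ℝ) * (m * (G + 1)) ≤ ∑ _g : Fin G, (N : ℝ) :=
            Finset.sum_le_sum fun g _ => (h2 g).le
        _ = G * N := by simp
    have h6 : (N : ℝ) ≤ m * (mov (F := F) K₀ v).card := by exact_mod_cast h1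
    have h7 : ((univ.biUnion fun g => into (F := F) (K g) (a g)).card : ℝ) <
        (mov (F := F) K₀ v).card := by
      have hNr : (0 : ℝ) < N := by exact_mod_cast hNpos
      have h8 : ((univ.biUnion fun g => into (F := F) (K g) (a g)).card : ℝ) * (m * (G + 1)) <
          (mov (F := F) K₀ v).card * (m * (G + 1)) := by
        calc ((univ.biUnion fun g => into (F := F) (K g) (a g)).card : ℝ) * (m * (G + 1))
            ≤ (∑ g, ((into (F := F) (K g) (a g)).card : ℝ)) * (m * (G + 1)) :=
              mul_le_mul_of_nonneg_right h4 hpos.le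
          _ ≤ G * N := h5
          _ < (G + 1) * N := by linarith
          _ ≤ (G + 1) * (m * (mov (F := F) K₀ v).card) :=
              mul_le_mul_of_nonneg_left h6 (by positivity)
          _ = _ := by ring
      exact lt_of_mul_lt_mul_right h8 hpos.le
    exact_mod_cast h7
  obtain ⟨ρ, hρ1, hρ2⟩ := h3
  refine ⟨ρ, ⟨v, hv, ?_⟩, fun g => ?_⟩
  · rw [mov, Finset.mem_filter] at hρ1
    exact hρ1.2
  · have h4 : ρ ∉ into (F := F) (K g) (a g) := fun h =>
      hρ2 (Finset.mem_biUnion.2 ⟨g, Finset.mem_univ _, h⟩)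
    by_contra hcon
    push Not at hcon
    apply h4
    rw [into, Finset.mem_filter]
    exact ⟨Finset.mem_univ _, hcon⟩

end Pool.Agent.Y918.QC
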