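import Mathlib
import Pool.Agent.H297R2.Eval
import Pool.Agent.Y918.QC.Gal

set_option autoImplicit false

/-!
# Simultaneous evaluation points for spaces over a small field

Points of a domain of finite type over an algebraically closed field `κ`, algebraic over `F`,
which test the `F`-linear independence of several families at the same time.
-/

namespace Pool.Agent.Y918.QC

open Finset Module Pool.Agent.H297R2

theorem notMem_span_of_ctr {κ S : Type*} [Field κ] [Fintype S] {n : ℕ} (v : Fin n → S → κ)
    (x c : S → κ) (h : ∀ j, ∑ s, v j s * c s = 0) (hx : ∑ s, x s * c s ≠ 0) :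
    x ∉ Submodule.span κ (Set.range v) := by
  intro hmem
  apply hx
  let ψ : (S → κ) →ₗ[κ] κ :=
    { toFun := fun y => ∑ s, y s * c s
      map_add' := by
        intro y z
        simp only [Pi.add_apply, add_mul, Finset.sum_add_distrib]
      map_smul' := by
        intro a y
        simp only [Pi.smul_apply, smul_eq_mul, RingHom.id_apply, Finset.mul_sum, mul_assoc] }
  have h1 : Submodule.span κ (Set.range v) ≤ LinearMap.ker ψ := by
    rw [Submodule.span_le]
    rintro _ ⟨j, rfl⟩
    exact h j
  exact h1 hmem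

section

variable {F κ : Type*} [Field F] [Field κ] [Algebra F κ]

/-- The relations with coefficients in an intermediate field. -/
noncomputable def relK {R : Type*} [CommRing R] [Algebra κ R] {S : Type*} [Fintype S]
    (E : IntermediateField F κ) (b : S → R) : Submodule E (S → E) where
  carrier := {c | ∑ s, (c s : κ) • b s = 0}
  add_mem' := by
    intro c d hc hd
    change ∑ s, (((c + d) s : E) : κ) • b s = 0
    have hc' : ∑ s, (c s : κ) • b s = 0 := hc
    have hd' : ∑ s, (d s : κ) • b s = 0 := hd
    simp only [Pi.add_apply, AddMemClass.coe_add, add_smul, Finset.sum_add_distrib, hc', hd',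
      add_zero]
  zero_mem' := by
    change ∑ s, (((0 : S → E) s : E) : κ) • b s = 0
    simp
  smul_mem' := by
    intro a c hc
    change ∑ s, (((a • c) s : E) : κ) • b s = 0
    have hc' : ∑ s, (c s : κ) • b s = 0 := hc
    have h1 : ∀ s, (((a • c) s : E) : κ) • b s = (a : κ) • ((c s : κ) • b s) := by
      intro s
      rw [Pi.smul_apply, smul_eq_mul, MulMemClass.coe_mul, mul_smul]
    rw [Finset.sum_congr rfl (fun s _ => h1 s), ← Finset.smul_sum, hc', smul_zero]

theorem mem_relK {R : Type*} [CommRing R] [Algebra κ R] {S : Type*} [Fintype S]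
    (E : IntermediateField F κ) (b : S → R) (c : S → E) :
    c ∈ relK E b ↔ ∑ s, (c s : κ) • b s = 0 := Iff.rfl

theorem relK_noRat {R : Type*} [CommRing R] [Algebra κ R] [Algebra F R] [IsScalarTower F κ R]
    {S : Type*} [Fintype S] (E : IntermediateField F κ) (b : S → R) (hb : LinearIndependent F b) :
    NoRat F (relK E b) := by
  intro q hq
  rw [mem_relK] at hq
  have h1 : ∀ s, ((algebraMap F E (q s) : E) : κ) • b s = q s • b s := fun s =>
    algebraMap_smul κ (q s) (b s)
  rw [Finset.sum_congr rfl (fun s _ => h1 s)] at hq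
  funext s
  exact Fintype.linearIndependent_iff.1 hb q hq s

/-- **Simultaneous evaluation points.** -/
theorem exists_pts (F κ : Type*) [Field F] [CharZero F] [Field κ] [Algebra F κ]
    [Algebra.IsAlgebraic F κ] [IsAlgClosed κ] (R : Type*) [CommRing R] [IsDomain R] [Algebra κ R]
    [Algebra.FiniteType κ R] [Algebra F R] [IsScalarTower F κ R] {G m p : ℕ}
    (hp : ((m * p + 1 : ℕ) : ℝ) * (1 - 1 / (m * (G + 1) : ℝ)) ^ p < 1)
    {S : Type} [Fintype S] (hS : Fintype.card S = m) {I : Type} [Fintype I]
    (hI : Fintype.card I = m * p + 1) (b : S → R) (hb : LinearIndependent F b)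
    (w : Fin G → I → R) (hw : ∀ g, LinearIndependent F (w g)) :
    ∀ n ≤ m, ∃ τ : Fin n → (R →ₐ[F] κ), LinearIndependent κ (fun j s => τ j (b s)) ∧
      ∀ g, LinearIndependent κ (fun j i => τ j (w g i)) := by
  classical
  intro n
  induction n with
  | zero =>
    intro _
    exact ⟨Fin.elim0, linearIndependent_empty_type, fun g => linearIndependent_empty_type⟩
  | succ n ih =>
    intro hn
    obtain ⟨τ, hτb, hτw⟩ := ih (by omega)
    set T : Set κ := Set.range (fun q : Fin n × S => τ q.1 (b q.2)) ∪
      Set.range (fun q : Fin n × Fin G × I => τ q.1 (w q.2.1 q.2.2)) with hT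
    have hTfin : T.Finite := (Set.finite_range _).union (Set.finite_range _)
    have hTf : Finite T := hTfin.to_subtype
    have hclos : IsAlgClosure F κ := ⟨inferInstance, inferInstance⟩
    have hnorm : Normal F κ := IsAlgClosure.normal F κ
    set L := IntermediateField.adjoin F T with hL
    have hLfin : FiniteDimensional F L :=
      IntermediateField.finiteDimensional_adjoin (fun x _ => (Algebra.IsAlgebraic.isAlgebraic x).isIntegral)
    set E : IntermediateField F κ := IntermediateField.normalClosure F L κ with hE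
    have hLE : L ≤ E := IntermediateField.le_normalClosure L
    have hEfin : FiniteDimensional F E := normalClosure.is_finiteDimensional F L κ
    have hEn : Normal F E := normalClosure.normal F L κ
    have hEgal : IsGalois F E := ⟨⟩
    have hTE : ∀ x ∈ T, x ∈ E := fun x hx => hLE (IntermediateField.subset_adjoin F T hx)
    have hmb : ∀ j s, τ j (b s) ∈ E := fun j s => hTE _ (Or.inl ⟨(j, s), rfl⟩)
    have hmw : ∀ j g i, τ j (w g i) ∈ E := fun j g i => hTE _ (Or.inr ⟨(j, g, i), rfl⟩)
    obtain ⟨ρ, ⟨c0, hc0, hc0'⟩, hcg⟩ := exists_good (F := F) (E := E) (n := n) (by omega) hp hS hI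
      (K₀ := relK E b) (relK_noRat E b hb) (fun j s => ⟨τ j (b s), hmb j s⟩)
      (fun g => relK E (w g)) (fun g => relK_noRat E (w g) (hw g))
      (fun g j i => ⟨τ j (w g i), hmw j g i⟩)
    choose cg hcg1 hcg2 using hcg
    rw [mem_relK] at hc0'
    simp only [mem_relK] at hcg2
    obtain ⟨φ, hφ⟩ := exists_hom κ R ((∑ s, ((act ρ c0 s : E) : κ) • b s) *
      ∏ g, ∑ i, ((act ρ (cg g) i : E) : κ) • w g i)
      (mul_ne_zero hc0' (Finset.prod_ne_zero_iff.2 fun g _ => hcg2 g))
    rw [map_mul] at hφ
    have hφ0 := left_ne_zero_of_mul hφ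
    have hφg : ∀ g, φ (∑ i, ((act ρ (cg g) i : E) : κ) • w g i) ≠ 0 := by
      have h1 := right_ne_zero_of_mul hφ
      rw [map_prod, Finset.prod_ne_zero_iff] at h1
      exact fun g => h1 g (Finset.mem_univ _)
    obtain ⟨σ, hσ⟩ := AlgEquiv.restrictNormalHom_surjective (F := F) (K₁ := E) (E := κ) ρ⁻¹
    have hσρ : ∀ e : E, σ ((ρ e : E) : κ) = (e : κ) := by
      intro e
      have h1 := AlgEquiv.restrictNormal_commutes σ E (ρ e)
      have h2 : σ.restrictNormal E = ρ⁻¹ := hσ
      rw [h2] at h1
      have h3 : (ρ⁻¹ : E ≃ₐ[F] E) (ρ e) = e := ρ.symm_apply_apply e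
      rw [h3] at h1
      exact h1.symm
    let τ' : R →ₐ[F] κ := (σ : κ →ₐ[F] κ).comp (φ.restrictScalars F)
    have hτ' : ∀ r, τ' r = σ (φ r) := fun r => rfl
    have hkey : ∀ {J : Type} [Fintype J] (c : J → E) (v : J → R),
        σ (φ (∑ s, ((act ρ c s : E) : κ) • v s)) = ∑ s, τ' (v s) * (c s : κ) := by
      intro J _ c v
      rw [map_sum, map_sum]
      refine Finset.sum_congr rfl fun s _ => ?_
      rw [map_smul, smul_eq_mul, map_mul, act_apply, hσρ, mul_comm, hτ']
    have hcons : ∀ {J : Type} [Fintype J] (v : J → R) (c : J → E),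
        LinearIndependent κ (fun j s => τ j (v s)) →
        (∀ j, ∑ s, τ j (v s) * (c s : κ) = 0) → ∑ s, τ' (v s) * (c s : κ) ≠ 0 →
        LinearIndependent κ (fun j s => (Fin.cons τ' τ : Fin (n + 1) → (R →ₐ[F] κ)) j (v s)) := by
      intro J _ v c hli h1 h2
      have h3 : (fun j s => (Fin.cons τ' τ : Fin (n + 1) → (R →ₐ[F] κ)) j (v s)) =
          (Fin.cons (fun s => τ' (v s)) (fun j s => τ j (v s)) : Fin (n + 1) → J → κ) := by
        funext j s
        refine Fin.cases ?_ (fun j => ?_) j
        · simp
        · simp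
      rw [h3, linearIndependent_finCons]
      exact ⟨hli, notMem_span_of_ctr _ _ (fun s => (c s : κ)) h1 h2⟩
    refine ⟨Fin.cons τ' τ, ?_, fun g => ?_⟩
    · apply hcons b c0 hτb
      · intro j
        have h1 := congrArg (algebraMap E κ) (hc0 j)
        rw [map_sum, map_zero] at h1
        simpa using h1
      · rw [← hkey c0 b]
        intro h
        apply hφ0
        exact (map_eq_zero σ).1 h
    · apply hcons (w g) (cg g) (hτw g)
      · intro j
        have h1 := congrArg (algebraMap E κ) (hcg1 g j)
        rw [map_sum, map_zero] at h1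
        simpa using h1
      · rw [← hkey (cg g) (w g)]
        intro h
        apply hφg g
        exact (map_eq_zero σ).1 h

end

end Pool.Agent.Y918.QC
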