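import Mathlib
import Pool.Agent.H297R2.Cube
import Pool.Agent.W245.MixedCube
import Pool.Agent.Y918.QC.Pts

set_option autoImplicit false

/-!
# No grid of shifts is entirely exceptional, over a small field

The shifts of one group are only supposed to be linearly independent over the small field `F`.
-/

namespace Pool.Agent.Y918.QC

open Finset Module Pool.Agent.H297R2 Pool.Agent.W245

section Det

variable {κ : Type*} [Field κ] {ι : Type} [Fintype ι] [DecidableEq ι] {D : ℕ}

/-- The evaluation determinant. -/
noncomputable def detQ (t : ι × Fin (D + 1) → ι → κ) (z : ι × Fin (D + 1) → κ) : κ :=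
  Matrix.det (Matrix.of fun (s j : ι × Fin (D + 1)) => t j s.1 * z j ^ (s.2 : ℕ))

theorem detQ_eq (t : ι × Fin (D + 1) → ι → κ) : detQ t = fun z : ι × Fin (D + 1) → κ =>
    ∑ π : Equiv.Perm (ι × Fin (D + 1)), ((Equiv.Perm.sign π : ℤ) : κ) *
      ∏ j, (t j (π j).1 * z j ^ ((π j).2 : ℕ)) := by
  funext z
  unfold detQ
  rw [Matrix.det_apply']
  rfl

theorem detQ_degLE (t : ι × Fin (D + 1) → ι → κ) :
    DegLE (Fintype.card (ι × Fin (D + 1)) * D) (detQ t) := by
  classical
  rw [detQ_eq]
  apply DegLE.sum
  intro π _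
  apply DegLE.const_mul
  have h := DegLE.prod (univ : Finset (ι × Fin (D + 1))) D
    (fun j (x : ι × Fin (D + 1) → κ) => t j (π j).1 * x j ^ ((π j).2 : ℕ)) (by
      intro j _
      apply DegLE.const_mul
      have h1 : DegLE ((π j).2 : ℕ) (fun x : ι × Fin (D + 1) → κ => x j ^ ((π j).2 : ℕ)) :=
        (DegLE.coord j).pow _
      have h2 : ((π j).2 : ℕ) ≤ D := by have := (π j).2.2; omega
      exact h1.mono h2)
  rw [Finset.card_univ] at h
  exact h

theorem detQ_linePoly (t : ι × Fin (D + 1) → ι → κ) : LinePoly (detQ t) := by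
  classical
  rw [detQ_eq]
  apply LinePoly.sum
  intro π _
  apply LinePoly.mul (LinePoly.const _)
  apply LinePoly.prod
  intro j _
  exact (LinePoly.const (V := ι × Fin (D + 1) → κ) (t j (π j).1)).mul ((LinePoly.coord j).pow _)

end Det

/-- Independent rows: the columns span. -/
theorem span_cols {κ J I : Type*} [Field κ] [Fintype J] [DecidableEq J] (M : J → I → κ)
    (h : LinearIndependent κ M) :
    Submodule.span κ (Set.range fun (i : I) (j : J) => M j i) = ⊤ := by
  classical
  by_contra hne
  obtain ⟨f, hf0, hf⟩ := Submodule.exists_le_ker_of_lt_top _ (lt_top_iff_ne_top.2 hne)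
  apply hf0
  set γ : J → κ := fun a => f (Pi.single a 1) with hγ
  have hfγ : ∀ v : J → κ, f v = ∑ a, γ a * v a := by
    intro v
    conv_lhs => rw [pi_eq_sum_univ' v]
    rw [map_sum]
    refine Finset.sum_congr rfl fun a _ => ?_
    rw [map_smul, smul_eq_mul, mul_comm]
  have h1 : ∑ j, γ j • M j = 0 := by
    funext i
    rw [Finset.sum_apply, Pi.zero_apply]
    have h2 : f (fun j => M j i) = 0 := by
      have h3 : (fun j => M j i) ∈ Submodule.span κ (Set.range fun (i : I) (j : J) => M j i) :=
        Submodule.subset_span ⟨i, rfl⟩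
      exact LinearMap.mem_ker.1 (hf h3)
    rw [hfγ] at h2
    rw [← h2]
    rfl
  have h2 := Fintype.linearIndependent_iff.1 h γ h1
  apply LinearMap.ext
  intro v
  rw [hfγ]
  simp [h2]

/-- Monomials with independent coefficients are independent. -/
theorem linearIndependent_mon {F A ι : Type*} [Field F] [CommRing A] [Algebra F A] [Fintype ι]
    (D : ℕ) (t : ι → A) (ht : LinearIndependent F t) :
    LinearIndependent F (fun s : ι × Fin (D + 1) =>
      (Polynomial.C (t s.1) * Polynomial.X ^ (s.2 : ℕ) : Polynomial A)) := by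
  classical
  rw [Fintype.linearIndependent_iff]
  rintro c hc ⟨i, e⟩
  have h2 := congrArg (fun P : Polynomial A => P.coeff (e : ℕ)) hc
  simp only [Polynomial.finsetSum_coeff, Polynomial.coeff_zero, Polynomial.coeff_smul,
    Polynomial.coeff_C_mul, Polynomial.coeff_X_pow, Fintype.sum_prod_type] at h2
  have h3 : ∀ i' : ι, ∑ e' : Fin (D + 1), c (i', e') • (t i' * if (e : ℕ) = (e' : ℕ) then 1 else 0) =
      c (i', e) • t i' := by
    intro i'
    rw [Finset.sum_eq_single e]
    · rw [if_pos rfl, mul_one]
    · intro e' _ he'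
      rw [if_neg (fun h => he' (Fin.ext h.symm)), mul_zero, smul_zero]
    · intro h
      exact absurd (Finset.mem_univ _) h
  rw [Finset.sum_congr rfl (fun i' _ => h3 i')] at h2
  exact (Fintype.linearIndependent_iff.1 ht) (fun i' => c (i', e)) h2 i

/-- **No grid is entirely exceptional** for a space with a given basis. -/
theorem cube_exact (F κ C : Type*) [Field F] [CharZero F] [Field κ] [Algebra F κ]
    [Algebra.IsAlgebraic F κ] [IsAlgClosed κ] [CharZero κ] [Field C] [Algebra κ C] [Algebra F C]
    [IsScalarTower F κ C] {ι : Type} [Fintype ι] [DecidableEq ι] (D p m : ℕ)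
    (hm : m = Fintype.card (ι × Fin (D + 1)))
    (hp : ((m * p + 1 : ℕ) : ℝ) * (1 - 1 / (m * ((m * D : ℕ) + 1) : ℝ)) ^ p < 1)
    {I : Type} [Fintype I] (hI : Fintype.card I = m * p + 1)
    (t : ι → C) (ht : LinearIndependent F t) (z₀ : C)
    (w : Fin (m * D) → I → C)
    (hw : ∀ g, LinearIndependent F (w g)) :
    ∃ η : Fin (m * D) → Option I,
      IndepOver (Submodule.span F (Set.range t))
        (fun e : Fin (D + 1) => (z₀ + ∑ g, (η g).elim 0 (w g)) ^ (e : ℕ)) := by
  classical
  set U : Set C := Set.range t ∪ {z₀} ∪ Set.range (fun q : Fin (m * D) × I => w q.1 q.2) with hU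
  have hUf : U.Finite := ((Set.finite_range _).union (Set.finite_singleton _)).union
    (Set.finite_range _)
  set A := Algebra.adjoin κ U with hA
  have hAfg : Algebra.FiniteType κ A := by
    rw [← Subalgebra.fg_iff_finiteType]
    exact ⟨hUf.toFinset, by simp [hA]⟩
  have htU : ∀ i, t i ∈ U := fun i => Or.inl (Or.inl ⟨i, rfl⟩)
  have hzU : z₀ ∈ U := Or.inl (Or.inr rfl)
  have hwU : ∀ g i, w g i ∈ U := fun g i => Or.inr ⟨(g, i), rfl⟩
  set tA : ι → A := fun i => ⟨t i, Algebra.subset_adjoin (htU i)⟩ with htA
  set zA : A := ⟨z₀, Algebra.subset_adjoin hzU⟩ with hzA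
  set wA : Fin (m * D) → I → A := fun g i => ⟨w g i, Algebra.subset_adjoin (hwU g i)⟩ with hwA
  let inc : A →ₗ[F] C := (A.val.restrictScalars F).toLinearMap
  have htAli : LinearIndependent F tA := LinearIndependent.of_comp inc ht
  have hwAli : ∀ g, LinearIndependent F (wA g) := fun g => LinearIndependent.of_comp inc (hw g)
  let R := Polynomial A
  have hRfg : Algebra.FiniteType κ (Polynomial A) :=
    Algebra.FiniteType.trans (S := A) inferInstance inferInstance
  let incC : A →ₗ[F] Polynomial A := ((Polynomial.CAlgHom (R := A) (A := A)).restrictScalars F).toLinearMap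
  have hwC : ∀ g, LinearIndependent F (fun i => (Polynomial.C (wA g i) : Polynomial A)) := by
    intro g
    have h1 := (hwAli g).map' incC (LinearMap.ker_eq_bot.2 (Polynomial.C_injective))
    exact h1
  obtain ⟨τ', hτb, hτw⟩ := exists_pts F κ (Polynomial A) (G := m * D) (m := m) (p := p) (by
    exact_mod_cast hp) (S := ι × Fin (D + 1)) hm.symm hI
    (fun s => Polynomial.C (tA s.1) * Polynomial.X ^ (s.2 : ℕ)) (linearIndependent_mon D tA htAli)
    (fun g i => Polynomial.C (wA g i)) hwC m le_rfl
  let e : ι × Fin (D + 1) ≃ Fin m := Fintype.equivFinOfCardEq hm.symm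
  set τ : ι × Fin (D + 1) → (A →ₐ[F] κ) := fun j =>
    (τ' (e j)).comp ((Polynomial.CAlgHom (R := A) (A := A)).restrictScalars F) with hτ
  have hτap : ∀ j a, τ j a = τ' (e j) (Polynomial.C a) := fun _ _ => rfl
  -- the determinant does not vanish identically
  have hdet : detQ (D := D) (fun j i => τ j (tA i)) (fun j => τ' (e j) Polynomial.X) ≠ 0 := by
    intro h0
    unfold detQ at h0
    rw [← Matrix.exists_mulVec_eq_zero_iff] at h0
    obtain ⟨c, hc0, hc⟩ := h0
    apply hc0
    have hli : LinearIndependent κ (fun (j : ι × Fin (D + 1)) (s : ι × Fin (D + 1)) =>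
        τ' (e j) (Polynomial.C (tA s.1) * Polynomial.X ^ (s.2 : ℕ))) := hτb.comp e e.injective
    have h1 : ∑ j, c j • (fun (s : ι × Fin (D + 1)) =>
        τ' (e j) (Polynomial.C (tA s.1) * Polynomial.X ^ (s.2 : ℕ))) = 0 := by
      funext s
      have h2 := congrFun hc s
      rw [Matrix.mulVec, dotProduct] at h2
      rw [Finset.sum_apply, ← h2]
      refine Finset.sum_congr rfl fun j _ => ?_
      rw [Pi.smul_apply, smul_eq_mul, mul_comm, Matrix.of_apply, map_mul, map_pow]
      rfl
    funext j
    exact Fintype.linearIndependent_iff.1 hli c h1 j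
  obtain ⟨η, hη⟩ := cube_nonvanish (V := ι × Fin (D + 1) → κ) (m * D)
    (detQ (D := D) (fun j i => τ j (tA i))) (by
      have h := detQ_degLE (D := D) (fun j i => τ j (tA i))
      rw [← hm] at h
      exact h) (detQ_linePoly _) ⟨_, hdet⟩
    (fun g i j => τ j (wA g i)) (by
      intro g
      exact span_cols (fun (j : ι × Fin (D + 1)) i => τ j (wA g i)) ((hτw g).comp e e.injective))
    (fun j => τ j zA)
  refine ⟨η, ?_⟩
  set z : A := zA + ∑ g, (η g).elim 0 (wA g) with hz
  have hzC : (z : C) = z₀ + ∑ g, (η g).elim 0 (w g) := by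
    rw [hz]
    push_cast
    congr 1
    refine Finset.sum_congr rfl fun g _ => ?_
    rcases η g with _ | i
    · simp
    · rfl
  have hzτ : ((fun j => τ j zA) + ∑ g, (η g).elim 0 (fun i j => τ j (wA g i))) =
      fun j : ι × Fin (D + 1) => τ j z := by
    funext j
    rw [Pi.add_apply, Finset.sum_apply, hz, map_add, map_sum]
    congr 1
    refine Finset.sum_congr rfl fun g _ => ?_
    rcases η g with _ | i
    · simp
    · rfl
  rw [hzτ] at hη
  -- independence
  intro c hcW hc
  simp only [← hzC] at hc
  have h0 : ∀ e, ∃ a : ι → F, ∑ i, a i • t i = c e := fun e =>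
    (Submodule.mem_span_range_iff_exists_fun F).1 (hcW e)
  choose a ha using h0
  have h1 : ∑ s : ι × Fin (D + 1), a s.2 s.1 • (tA s.1 * z ^ (s.2 : ℕ)) = 0 := by
    apply Subtype.ext
    rw [ZeroMemClass.coe_zero, ← hc]
    push_cast
    rw [Fintype.sum_prod_type_right]
    apply Finset.sum_congr rfl
    intro e _
    rw [← ha e, Finset.sum_mul]
    apply Finset.sum_congr rfl
    intro i _
    rw [smul_mul_assoc]
  unfold detQ at hη
  have h2 := Matrix.eq_zero_of_vecMul_eq_zero hη
    (v := fun s : ι × Fin (D + 1) => algebraMap F κ (a s.2 s.1)) (by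
    funext j
    have h3 := congrArg (τ j) h1
    rw [map_sum, map_zero] at h3
    rw [Pi.zero_apply, ← h3, Matrix.vecMul, dotProduct]
    apply Finset.sum_congr rfl
    intro s _
    rw [map_smul, map_mul, map_pow, Matrix.of_apply, Algebra.smul_def])
  intro e
  rw [← ha e]
  apply Finset.sum_eq_zero
  intro i _
  have h4 := congrFun h2 (i, e)
  have h5 : a e i = 0 := (map_eq_zero (algebraMap F κ)).1 h4
  rw [h5, zero_smul]

/-- The grid property: among the shifted points of a grid with independent directions in every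
group, one is independent over `W` up to degree `D`. -/
def GridP {F C : Type*} [Field F] [Field C] [Algebra F C] (D G B : ℕ) (W : Submodule F C) : Prop :=
  ∀ (z₀ : C) (w : Fin G → Fin B → C), (∀ g, LinearIndependent F (w g)) →
    ∃ η : Fin G → Option (Fin B),
      IndepOver W (fun e : Fin (D + 1) => (z₀ + ∑ g, (η g).elim 0 (w g)) ^ (e : ℕ))

theorem GridP.mono {F C : Type*} [Field F] [Field C] [Algebra F C] {D G B G' B' : ℕ}
    {W : Submodule F C} (h : GridP D G B W) (hG : G ≤ G') (hB : B ≤ B') : GridP D G' B' W := by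
  obtain ⟨k, rfl⟩ := Nat.exists_eq_add_of_le hG
  intro z₀ w hw
  obtain ⟨η, hη⟩ := h z₀ (fun g i => w (Fin.castAdd k g) (Fin.castLE hB i)) (fun g =>
    (hw (Fin.castAdd k g)).comp _ (Fin.castLE_injective hB))
  refine ⟨Fin.addCases (fun g => (η g).map (Fin.castLE hB)) (fun _ => none), ?_⟩
  convert hη using 4
  rw [Fin.sum_univ_add]
  simp only [Fin.addCases_left, Fin.addCases_right, Option.elim_none, Finset.sum_const_zero,
    add_zero]
  refine Finset.sum_congr rfl fun g _ => ?_
  rcases η g with _ | i
  · rfl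
  · rfl

/-- **The grid theorem.** -/
theorem cubeQ (F κ C : Type*) [Field F] [CharZero F] [Field κ] [Algebra F κ]
    [Algebra.IsAlgebraic F κ] [IsAlgClosed κ] [CharZero κ] [Field C] [Algebra κ C] [Algebra F C]
    [IsScalarTower F κ C] (D N : ℕ) : ∃ G B : ℕ, ∀ W : Submodule F C, Module.Finite F W →
      finrank F W ≤ N → GridP D G B W := by
  classical
  induction N with
  | zero =>
    refine ⟨0, 0, fun W hW hN => ?_⟩
    intro z₀ w _
    refine ⟨Fin.elim0, ?_⟩
    have h1 : W = ⊥ := Submodule.finrank_eq_zero.1 (Nat.le_zero.1 hN)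
    intro c hc _ e
    have h2 := hc e
    rw [h1] at h2
    exact (Submodule.mem_bot F).1 h2
  | succ N ih =>
    obtain ⟨G, B, hGB⟩ := ih
    set m := Fintype.card (Fin (N + 1) × Fin (D + 1)) with hm
    have hmpos : 0 < m := by
      rw [hm]
      exact Fintype.card_pos
    obtain ⟨p, hp⟩ := exists_size m (m * D) hmpos
    refine ⟨max G (m * D), max B (m * p + 1), fun W hW hN => ?_⟩
    rcases Nat.lt_or_ge (finrank F W) (N + 1) with h | h
    · exact (hGB W hW (by omega)).mono (le_max_left _ _) (le_max_left _ _)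
    · have hN' : finrank F W = N + 1 := le_antisymm hN h
      have h1 : GridP D (m * D) (m * p + 1) W := by
        let b := Module.finBasisOfFinrankEq F W hN'
        have hli : LinearIndependent F (fun i => ((b i : W) : C)) :=
          b.linearIndependent.map' W.subtype (Submodule.ker_subtype W)
        have hspan : Submodule.span F (Set.range fun i => ((b i : W) : C)) = W := by
          have h2 : (Set.range fun i => ((b i : W) : C)) = W.subtype '' Set.range b := by
            rw [← Set.range_comp]
            rfl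
          rw [h2, Submodule.span_image, b.span_eq, Submodule.map_top, Submodule.range_subtype]
        intro z₀ w hw
        have h3 := cube_exact F κ C (ι := Fin (N + 1)) D p m hm hp (I := Fin (m * p + 1)) (by rw [Fintype.card_fin])
          (fun i => ((b i : W) : C)) hli z₀ w hw
        rw [hspan] at h3
        exact h3
      exact h1.mono (le_max_right _ _) (le_max_right _ _)

end Pool.Agent.Y918.QC
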