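import Mathlib
import Pool.Agent.W548.Tt.LO

set_option autoImplicit false

/-!
# Subset sums in a translate of a rational subspace
-/

namespace Pool.Agent.Y918.QC

open Finset Module Pool.Agent.W548.Ab

variable {C : Type*} [AddCommGroup C] [Module ℚ C] {X : Type*} [DecidableEq X]

open Classical in
theorem lo_sub (T : Finset X) (a : X → C) (V : Submodule ℚ C) (y : C)
    (hT : ∀ x ∈ T, a x ∉ V) :
    (T.powerset.filter (fun S => ∑ x ∈ S, a x - y ∈ V)).card ≤ mid T.card := by
  classical
  obtain ⟨f, hf⟩ := Module.exists_dual_forall_apply_ne_zero (K := ℚ) (ι := T)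
    (fun x => V.mkQ (a x)) (fun x => by
      rw [Submodule.mkQ_apply, Ne, Submodule.Quotient.mk_eq_zero]
      exact hT x x.2)
  let d : X → ℝ := fun x => ((f (V.mkQ (a x)) : ℚ) : ℝ)
  refine (Finset.card_le_card ?_).trans (Pool.Agent.W548.Tt.lo_powerset_real T d (by
    intro x hx
    have h0 := hf ⟨x, hx⟩
    simp only [d]
    exact_mod_cast h0) ((f (V.mkQ y) : ℚ) : ℝ))
  intro S hS
  rw [Finset.mem_filter] at hS ⊢
  refine ⟨hS.1, ?_⟩
  have h1 : V.mkQ (∑ x ∈ S, a x - y) = 0 := by
    rw [Submodule.mkQ_apply, Submodule.Quotient.mk_eq_zero]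
    exact hS.2
  rw [map_sub, sub_eq_zero, map_sum] at h1
  have h2 := congrArg f h1
  rw [map_sum] at h2
  simp only [d]
  rw [← h2]
  push_cast
  rfl

open Classical in
/-- The number of the subset sums in a translate of a subspace which misses many elements. -/
theorem lo_count (U : Finset X) (a : X → C) (V : Submodule ℚ C) (y : C) (P : ℕ) (hP : 0 < P)
    (h : P ≤ (U.filter (fun x => a x ∉ V)).card) :
    ((U.powerset.filter (fun S => ∑ x ∈ S, a x - y ∈ V)).card : ℝ) ≤
      (1 / Real.sqrt P) * 2 ^ U.card := by
  classical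
  set T := U.filter (fun x => a x ∉ V) with hT
  have hTU : T ⊆ U := Finset.filter_subset _ _
  have h1 : (U.powerset.filter (fun S => ∑ x ∈ S, a x - y ∈ V)).card ≤
      2 ^ (U.card - T.card) * mid T.card := by
    -- split a subset into two parts
    have h2 : (U.powerset.filter (fun S => ∑ x ∈ S, a x - y ∈ V)).card =
        ∑ R ∈ (U \ T).powerset, ((U.powerset.filter (fun S => ∑ x ∈ S, a x - y ∈ V)).filter
          (fun S => S \ T = R)).card := by
      apply Finset.card_eq_sum_card_fiberwise
      intro S hS
      rw [Finset.mem_coe, Finset.mem_filter, Finset.mem_powerset] at hS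
      rw [Finset.mem_coe, Finset.mem_powerset]
      exact Finset.sdiff_subset_sdiff hS.1 (Finset.Subset.refl T)
    rw [h2]
    calc _ ≤ ∑ R ∈ (U \ T).powerset, mid T.card := by
          apply Finset.sum_le_sum
          intro R _
          refine le_trans (Finset.card_le_card_of_injOn (fun S => S ∩ T) ?_ ?_)
            (lo_sub T a V (y - ∑ x ∈ R, a x) (fun x hx => (Finset.mem_filter.1 hx).2))
          · intro S hS
            rw [Finset.mem_coe, Finset.mem_filter, Finset.mem_filter] at hS
            rw [Finset.mem_coe, Finset.mem_filter, Finset.mem_powerset]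
            refine ⟨Finset.inter_subset_right, ?_⟩
            have h3 : ∑ x ∈ S, a x = ∑ x ∈ S ∩ T, a x + ∑ x ∈ R, a x := by
              rw [← hS.2]
              exact (Finset.sum_inter_add_sum_sdiff S T a).symm
            have h4 := hS.1.2
            rw [h3] at h4
            convert h4 using 1
            abel
          · intro S hS S' hS' hSS
            rw [Finset.mem_coe, Finset.mem_filter] at hS hS'
            have e1 : S ∩ T = S' ∩ T := hSS
            have e2 : S \ T = S' \ T := hS.2.trans hS'.2.symm
            rw [← Finset.sdiff_union_inter S T, ← Finset.sdiff_union_inter S' T, e1, e2]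
      _ = _ := by
          rw [Finset.sum_const, smul_eq_mul, Finset.card_powerset,
            Finset.card_sdiff_of_subset hTU]
  have hTpos : 0 < T.card := lt_of_lt_of_le hP h
  have h2 := beta_sq_le T.card hTpos
  have h3 : beta T.card ≤ 1 / Real.sqrt P := by
    rw [le_div_iff₀ (Real.sqrt_pos.2 (by exact_mod_cast hP))]
    have hPT : (P : ℝ) ≤ T.card := by exact_mod_cast h
    have hTr : (0 : ℝ) < T.card := by exact_mod_cast hTpos
    have hPr : (0 : ℝ) < P := by exact_mod_cast hP
    have h5 : (beta T.card * Real.sqrt P) ^ 2 ≤ 1 ^ 2 := by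
      rw [mul_pow, Real.sq_sqrt hPr.le, one_pow]
      calc beta T.card ^ 2 * P ≤ 2 / (3 * T.card) * T.card := by
            gcongr
        _ = 2 / 3 := by field_simp
        _ ≤ 1 := by norm_num
    exact le_of_sq_le_sq h5 (by norm_num)
  have hle : T.card ≤ U.card := Finset.card_le_card hTU
  calc ((U.powerset.filter (fun S => ∑ x ∈ S, a x - y ∈ V)).card : ℝ)
      ≤ ((2 ^ (U.card - T.card) * mid T.card : ℕ) : ℝ) := by exact_mod_cast h1
    _ = beta T.card * 2 ^ U.card := by
        unfold beta
        push_cast
        have : (2 : ℝ) ^ U.card = 2 ^ (U.card - T.card) * 2 ^ T.card := by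
          rw [← pow_add]
          congr 1
          omega
        rw [this]
        field_simp
    _ ≤ _ := by gcongr

end Pool.Agent.Y918.QC
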