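import Mathlib
import Pool.Agent.H301R2.SSE.Forms
import Pool.Agent.Y918.QC.Box
import Pool.Agent.Y918.QC.LO
import Pool.Agent.Y918.QC.Cube

set_option autoImplicit false

/-!
# Relations of random subset sums
-/

namespace Pool.Agent.Y918.QC

open Finset Module Pool.Agent.W245

section Dep

variable {C : Type*} [AddCommGroup C] [Module ℚ C] {X : Type*}

open Classical in
/-- Dependent tuples are rare. -/
theorem dep_count (A : Finset X) (f : X → C) (B : ℕ) (ρ : ℝ) (hρ : 0 ≤ ρ)
    (h : ∀ V : Submodule ℚ C, Module.Finite ℚ V → finrank ℚ V < B →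
      ((A.filter (fun x => f x ∈ V)).card : ℝ) ≤ ρ * A.card) :
    ∀ n ≤ B, (((Fintype.piFinset fun _ : Fin n => A).filter
      (fun v => ¬ LinearIndependent ℚ (fun i => f (v i)))).card : ℝ) ≤
        n * ρ * (A.card : ℝ) ^ n := by
  classical
  intro n
  induction n with
  | zero =>
    intro _
    rw [Finset.filter_false_of_mem]
    · simp
    · intro v _ hv
      exact hv linearIndependent_empty_type
  | succ n ih =>
    intro hn
    set a : ℝ := (A.card : ℝ) with ha
    have ha0 : 0 ≤ a := Nat.cast_nonneg _
    set F := (Fintype.piFinset fun _ : Fin (n + 1) => A).filter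
      (fun v => ¬ LinearIndependent ℚ (fun i => f (v i))) with hF
    set Y : Finset (Fin n → X) := Fintype.piFinset fun _ : Fin n => A with hY
    have hYc : (Y.card : ℝ) = a ^ n := by
      rw [hY, Fintype.card_piFinset_const]
      push_cast
      rfl
    have hfib : F.card = ∑ t ∈ Y, (F.filter (fun v => Fin.tail v = t)).card := by
      apply Finset.card_eq_sum_card_fiberwise
      intro v hv
      rw [Finset.mem_coe, hF, Finset.mem_filter, Fintype.mem_piFinset] at hv
      rw [Finset.mem_coe, hY, Fintype.mem_piFinset]
      exact fun i => hv.1 i.succ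
    have hinj : ∀ t, Set.InjOn (fun v : Fin (n + 1) → X => v 0)
        (F.filter (fun v => Fin.tail v = t) : Finset (Fin (n + 1) → X)) := by
      intro t v hv v' hv' hvv
      rw [Finset.mem_coe, Finset.mem_filter] at hv hv'
      have h1 : v 0 = v' 0 := hvv
      rw [← Fin.cons_self_tail v, ← Fin.cons_self_tail v', hv.2, hv'.2, h1]
    have hall : ∀ t ∈ Y, ((F.filter (fun v => Fin.tail v = t)).card : ℝ) ≤
        (if ¬ LinearIndependent ℚ (fun i => f (t i)) then a else 0) + ρ * a := by
      intro t _
      by_cases h0 : ¬ LinearIndependent ℚ (fun i => f (t i))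
      · rw [if_pos h0]
        have h1 : (F.filter (fun v => Fin.tail v = t)).card ≤ A.card := by
          refine Finset.card_le_card_of_injOn (fun v => v 0) ?_ (hinj t)
          intro v hv
          rw [Finset.mem_coe, Finset.mem_filter, hF, Finset.mem_filter, Fintype.mem_piFinset] at hv
          exact hv.1.1 0
        have h2 : ((F.filter (fun v => Fin.tail v = t)).card : ℝ) ≤ a := by
          rw [ha]
          exact_mod_cast h1
        have h3 : 0 ≤ ρ * a := mul_nonneg hρ ha0
        linarith
      · rw [if_neg h0, zero_add]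
        push Not at h0
        have hfin : Module.Finite ℚ (Submodule.span ℚ (Set.range fun i => f (t i))) :=
          FiniteDimensional.span_of_finite ℚ (Set.finite_range _)
        have hrk : finrank ℚ (Submodule.span ℚ (Set.range fun i => f (t i))) < B := by
          have h1 := finrank_range_le_card (R := ℚ) (fun i => f (t i))
          rw [Fintype.card_fin] at h1
          have h2 : finrank ℚ (Submodule.span ℚ (Set.range fun i => f (t i))) ≤ n := h1
          omega
        refine le_trans (Nat.cast_le.2 ?_) (h _ hfin hrk)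
        refine Finset.card_le_card_of_injOn (fun v => v 0) ?_ (hinj t)
        intro v hv
        rw [Finset.mem_coe, Finset.mem_filter, hF, Finset.mem_filter, Fintype.mem_piFinset] at hv
        rw [Finset.mem_coe, Finset.mem_filter]
        refine ⟨hv.1.1 0, ?_⟩
        by_contra hcon
        apply hv.1.2
        have h1 : (fun i => f (v i)) =
            (Fin.cons (f (v 0)) (fun i => f (t i)) : Fin (n + 1) → C) := by
          funext i
          refine Fin.cases ?_ (fun i => ?_) i
          · rfl
          · rw [Fin.cons_succ, ← hv.2]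
            rfl
        rw [h1, linearIndependent_finCons]
        exact ⟨h0, hcon⟩
    have ih' := ih (by omega)
    rw [hfib]
    push_cast
    refine (Finset.sum_le_sum hall).trans ?_
    rw [Finset.sum_add_distrib, ← Finset.sum_filter, Finset.sum_const, Finset.sum_const,
      nsmul_eq_mul, nsmul_eq_mul, hYc]
    have h1 : (((Y.filter fun v => ¬ LinearIndependent ℚ (fun i => f (v i))).card : ℕ) : ℝ) * a ≤
        (n * ρ * a ^ n) * a := mul_le_mul_of_nonneg_right ih' ha0
    calc _ ≤ (n * ρ * a ^ n) * a + a ^ n * (ρ * a) := by linarith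
      _ = (n + 1) * ρ * a ^ (n + 1) := by ring

open Classical in
/-- Degenerate grids directions are rare. -/
theorem deg_count (A : Finset X) (f : X → C) (B : ℕ) (ρ : ℝ) (hρ : 0 ≤ ρ)
    (h : ∀ V : Submodule ℚ C, Module.Finite ℚ V → finrank ℚ V < B → ∀ y : C,
      ((A.filter (fun x => f x - y ∈ V)).card : ℝ) ≤ ρ * A.card) :
    (((Fintype.piFinset fun _ : Fin (B + 1) => A).filter
      (fun x => ¬ LinearIndependent ℚ (fun i : Fin B => f (x i.succ) - f (x 0)))).card : ℝ) ≤
        (B * ρ) * (A.card : ℝ) ^ (B + 1) := by
  classical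
  set a : ℝ := (A.card : ℝ) with ha
  set F := (Fintype.piFinset fun _ : Fin (B + 1) => A).filter
      (fun x => ¬ LinearIndependent ℚ (fun i : Fin B => f (x i.succ) - f (x 0))) with hF
  have hfib : F.card = ∑ u ∈ A, (F.filter (fun x => x 0 = u)).card := by
    apply Finset.card_eq_sum_card_fiberwise
    intro x hx
    rw [Finset.mem_coe, hF, Finset.mem_filter, Fintype.mem_piFinset] at hx
    exact hx.1 0
  rw [hfib]
  push_cast
  have hall : ∀ u ∈ A, ((F.filter (fun x => x 0 = u)).card : ℝ) ≤ B * ρ * a ^ B := by
    intro u _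
    have h1 := dep_count A (fun x => f x - f u) B ρ hρ (fun V hV hV' => h V hV hV' (f u)) B le_rfl
    refine le_trans (Nat.cast_le.2 ?_) h1
    refine Finset.card_le_card_of_injOn (fun x => Fin.tail x) ?_ ?_
    · intro x hx
      rw [Finset.mem_coe, Finset.mem_filter, hF, Finset.mem_filter, Fintype.mem_piFinset] at hx
      rw [Finset.mem_coe, Finset.mem_filter, Fintype.mem_piFinset]
      refine ⟨fun i => hx.1.1 i.succ, ?_⟩
      have h2 := hx.1.2
      rw [hx.2] at h2
      exact h2
    · intro x hx x' hx' hxx
      rw [Finset.mem_coe, Finset.mem_filter] at hx hx'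
      have h2 : Fin.tail x = Fin.tail x' := hxx
      rw [← Fin.cons_self_tail x, ← Fin.cons_self_tail x', hx.2, hx'.2, h2]
  refine (Finset.sum_le_sum hall).trans ?_
  rw [Finset.sum_const, nsmul_eq_mul]
  apply le_of_eq
  rw [← ha]
  ring

end Dep

section Rich

variable {C : Type*} [AddCommGroup C] [Module ℚ C] {X : Type*} [DecidableEq X]

open Classical in
/-- Every subspace of dimension less than `B` misses at least `P` elements. -/
def Rich (a : X → C) (U : Finset X) (B P : ℕ) : Prop :=
  ∀ V : Submodule ℚ C, Module.Finite ℚ V → finrank ℚ V < B →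
    P ≤ (U.filter (fun x => a x ∉ V)).card

theorem Rich.mono {a : X → C} {U : Finset X} {B P P' : ℕ} (h : Rich a U B P) (hP : P' ≤ P) :
    Rich a U B P' := fun V hV hV' => hP.trans (h V hV hV')

theorem Rich.exists_tuple {a : X → C} {U : Finset X} {B : ℕ} (h : Rich a U B 1) :
    ∀ n ≤ B, ∃ T ⊆ U, T.card ≤ n ∧ n ≤ finrank ℚ (Submodule.span ℚ (a '' (T : Set X))) := by
  classical
  intro n
  induction n with
  | zero =>
    intro _
    exact ⟨∅, Finset.empty_subset _, by simp, Nat.zero_le _⟩
  | succ n ih =>
    intro hn
    obtain ⟨T, hTU, hTc, hTr⟩ := ih (by omega)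
    have hfin : Module.Finite ℚ (Submodule.span ℚ (a '' (T : Set X))) :=
      FiniteDimensional.span_of_finite ℚ ((T.finite_toSet).image _)
    rcases Nat.lt_or_ge n (finrank ℚ (Submodule.span ℚ (a '' (T : Set X)))) with h1 | h1
    · exact ⟨T, hTU, by omega, h1⟩
    · have h2 := h _ hfin (by omega)
      obtain ⟨x, hx⟩ := Finset.card_pos.1 (lt_of_lt_of_le Nat.zero_lt_one h2)
      rw [Finset.mem_filter] at hx
      refine ⟨insert x T, ?_, ?_, ?_⟩
      · intro z hz
        rcases Finset.mem_insert.1 hz with rfl | hz
        · exact hx.1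
        · exact hTU hz
      · have := Finset.card_insert_le x T
        omega
      · have hfin' : Module.Finite ℚ (Submodule.span ℚ (a '' ((insert x T : Finset X) : Set X))) :=
          FiniteDimensional.span_of_finite ℚ (((insert x T : Finset X).finite_toSet).image _)
        have h3 : Submodule.span ℚ (a '' (T : Set X)) <
            Submodule.span ℚ (a '' ((insert x T : Finset X) : Set X)) := by
          refine lt_of_le_of_ne (Submodule.span_mono (Set.image_mono (by simp))) ?_
          intro heq
          apply hx.2
          rw [heq]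
          exact Submodule.subset_span ⟨x, by simp, rfl⟩
        have h4 := Submodule.finrank_lt_finrank_of_lt h3
        omega

theorem Rich.exists_one {a : X → C} {U : Finset X} {B : ℕ} (h : Rich a U B 1) :
    ∃ T ⊆ U, T.card ≤ B ∧ Rich a T B 1 := by
  classical
  obtain ⟨T, hTU, hTc, hTr⟩ := h.exists_tuple B le_rfl
  refine ⟨T, hTU, hTc, fun V hV hV' => ?_⟩
  rw [Nat.succ_le_iff, Finset.card_pos]
  by_contra hcon
  rw [Finset.not_nonempty_iff_eq_empty, Finset.filter_eq_empty_iff] at hcon
  have h1 : Submodule.span ℚ (a '' (T : Set X)) ≤ V := by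
    rw [Submodule.span_le]
    rintro _ ⟨x, hx, rfl⟩
    have := hcon (Finset.mem_coe.1 hx)
    push Not at this
    exact this
  have h2 := Submodule.finrank_mono h1
  omega

theorem Rich.exists_block {a : X → C} {B : ℕ} (hB : 0 < B) (P : ℕ) :
    ∀ {U : Finset X}, Rich a U B (P * B) → ∃ T ⊆ U, T.card ≤ P * B ∧ Rich a T B P := by
  classical
  induction P with
  | zero =>
    intro U _
    exact ⟨∅, Finset.empty_subset _, by simp, fun V _ _ => Nat.zero_le _⟩
  | succ P ih =>
    intro U h
    obtain ⟨T, hTU, hTc, hTr⟩ := ih (h.mono (Nat.mul_le_mul_right _ (Nat.le_succ P)))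
    have h1 : Rich a (U \ T) B 1 := by
      intro V hV hV'
      have h2 := h V hV hV'
      have h3 : (U.filter (fun x => a x ∉ V)).card ≤
          ((U \ T).filter (fun x => a x ∉ V)).card + T.card := by
        refine le_trans (Finset.card_le_card ?_) (Finset.card_union_le _ _)
        intro x hx
        rw [Finset.mem_filter] at hx
        rw [Finset.mem_union, Finset.mem_filter, Finset.mem_sdiff]
        by_cases hxT : x ∈ T
        · exact Or.inr hxT
        · exact Or.inl ⟨⟨hx.1, hxT⟩, hx.2⟩
      have h4 : (P + 1) * B = P * B + B := by ring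
      omega
    obtain ⟨T', hT'U, hT'c, hT'r⟩ := h1.exists_one
    have hdis : Disjoint T T' := by
      rw [Finset.disjoint_left]
      intro x hx hx'
      exact (Finset.mem_sdiff.1 (hT'U hx')).2 hx
    refine ⟨T ∪ T', Finset.union_subset hTU (hT'U.trans Finset.sdiff_subset), ?_, ?_⟩
    · have h4 : (P + 1) * B = P * B + B := by ring
      have := Finset.card_union_le T T'
      omega
    · intro V hV hV'
      rw [Finset.filter_union, Finset.card_union_of_disjoint
        (Finset.disjoint_filter_filter hdis)]
      exact Nat.add_le_add (hTr V hV hV') (hT'r V hV hV')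

theorem Rich.exists_groups {a : X → C} {B : ℕ} (hB : 0 < B) (P G : ℕ) :
    ∀ {U : Finset X}, Rich a U B (G * (P * B)) → ∃ T : Fin G → Finset X, (∀ g, T g ⊆ U) ∧
      (∀ g g', g ≠ g' → Disjoint (T g) (T g')) ∧ ∀ g, Rich a (T g) B P := by
  classical
  induction G with
  | zero =>
    intro U _
    exact ⟨Fin.elim0, fun g => g.elim0, fun g => g.elim0, fun g => g.elim0⟩
  | succ G ih =>
    intro U h
    have hring : (G + 1) * (P * B) = G * (P * B) + P * B := by ring
    obtain ⟨T₀, hTU, hTc, hTr⟩ := Rich.exists_block hB P (h.mono (by omega))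
    have h1 : Rich a (U \ T₀) B (G * (P * B)) := by
      intro V hV hV'
      have h2 := h V hV hV'
      have h3 : (U.filter (fun x => a x ∉ V)).card ≤
          ((U \ T₀).filter (fun x => a x ∉ V)).card + T₀.card := by
        refine le_trans (Finset.card_le_card ?_) (Finset.card_union_le _ _)
        intro x hx
        rw [Finset.mem_filter] at hx
        rw [Finset.mem_union, Finset.mem_filter, Finset.mem_sdiff]
        by_cases hxT : x ∈ T₀
        · exact Or.inr hxT
        · exact Or.inl ⟨⟨hx.1, hxT⟩, hx.2⟩
      omega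
    obtain ⟨T, hTU', hTd, hTr'⟩ := ih h1
    have hd0 : ∀ g, Disjoint T₀ (T g) := by
      intro g
      rw [Finset.disjoint_left]
      intro x hx hx'
      exact (Finset.mem_sdiff.1 (hTU' g hx')).2 hx
    refine ⟨Fin.cons T₀ T, ?_, ?_, ?_⟩
    · intro g
      refine Fin.cases ?_ (fun g => ?_) g
      · exact hTU
      · exact (hTU' g).trans Finset.sdiff_subset
    · intro g
      refine Fin.cases ?_ (fun g => ?_) g
      · intro g'
        refine Fin.cases ?_ (fun g' => ?_) g'
        · intro hne
          exact absurd rfl hne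
        · intro _
          exact hd0 g'
      · intro g'
        refine Fin.cases ?_ (fun g' => ?_) g'
        · intro _
          exact (hd0 g).symm
        · intro hne
          exact hTd g g' (fun h => hne (congrArg Fin.succ h))
    · intro g
      refine Fin.cases ?_ (fun g => ?_) g
      · exact hTr
      · exact hTr' g

end Rich

end Pool.Agent.Y918.QC
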