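import Mathlib
import Pool.Agent.Y918.QC.Sub

set_option autoImplicit false

/-!
# Relations of one random subset sum
-/

namespace Pool.Agent.Y918.QC

open Finset Module Pool.Agent.W245
open Pool.Agent.H301R2.SSE (QB mem_QB)

/-- The powers of `z` up to the exponent `D`. -/
noncomputable def pwr (D : ℕ) (z : ℂ) (e : Fin (D + 1)) : ℂ := z ^ (e : ℕ)

open Classical in
/-- **One random subset sum.** -/
theorem sub_single {X : Type*} [DecidableEq X] (D G B : ℕ) (hB : 0 < B) (U : Finset X) (a : X → ℂ)
    (P : ℕ) (hP : B ^ 2 ≤ P) (hR : Rich a U B (G * (P * B))) (W : Submodule ℚ ℂ)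
    (hW : GridP D G B W) (y : ℂ) :
    ((U.powerset.filter (fun S => ¬ IndepOver W (pwr D (y + ∑ x ∈ S, a x)))).card : ℝ) ≤
      G * (B / Real.sqrt P) ^ ((1 / (B + 1 : ℝ)) ^ G) * 2 ^ U.card := by
  classical
  have hPpos : 0 < P := lt_of_lt_of_le (pow_pos hB 2) hP
  obtain ⟨T, hTU, hTd, hTr⟩ := Rich.exists_groups hB P G hR
  set ρ : ℝ := 1 / Real.sqrt P with hρ
  have hsq : 0 < Real.sqrt P := Real.sqrt_pos.2 (by exact_mod_cast hPpos)
  have hρ0 : 0 < ρ := by rw [hρ]; exact one_div_pos.2 hsq
  set θ : ℝ := B * ρ with hθ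
  have hBr : (0 : ℝ) < B := by exact_mod_cast hB
  have hθ0 : 0 < θ := mul_pos hBr hρ0
  have hθ1 : θ ≤ 1 := by
    rw [hθ, hρ, mul_one_div, div_le_one hsq]
    apply Real.le_sqrt_of_sq_le
    exact_mod_cast hP
  have hθ' : (B : ℝ) / Real.sqrt P = θ := by rw [hθ, hρ, mul_one_div]
  rw [hθ']
  let val : Finset X → ℂ := fun s => ∑ x ∈ s, a x
  set bi : Finset X := univ.biUnion T with hbi
  have hbiU : bi ⊆ U := by
    rw [hbi, Finset.biUnion_subset]
    exact fun g _ => hTU g
  have hcardbi : bi.card = ∑ g, (T g).card := by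
    rw [hbi]
    exact Finset.card_biUnion (fun g _ g' _ h => hTd g g' h)
  set Bad := U.powerset.filter (fun S => ¬ IndepOver W (pwr D (y + ∑ x ∈ S, a x))) with hBad
  have hfib : Bad.card = ∑ R ∈ (U \ bi).powerset, (Bad.filter (fun S => S \ bi = R)).card := by
    apply Finset.card_eq_sum_card_fiberwise
    intro S hS
    rw [Finset.mem_coe, hBad, Finset.mem_filter, Finset.mem_powerset] at hS
    rw [Finset.mem_coe, Finset.mem_powerset]
    exact Finset.sdiff_subset_sdiff hS.1 (Finset.Subset.refl bi)
  -- the count for a fixed rest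
  have hmain : ∀ R ∈ (U \ bi).powerset, ((Bad.filter (fun S => S \ bi = R)).card : ℝ) ≤
      G * θ ^ ((1 / (B + 1 : ℝ)) ^ G) * 2 ^ bi.card := by
    intro R _
    set BR : Finset (Fin G → Finset X) := (Fintype.piFinset fun g => (T g).powerset).filter
      (fun s => ¬ IndepOver W (pwr D (y + val R + ∑ g, val (s g)))) with hBR
    have h1 : (Bad.filter (fun S => S \ bi = R)).card ≤ BR.card := by
      refine Finset.card_le_card_of_injOn (fun S g => S ∩ T g) ?_ ?_
      · intro S hS
        rw [Finset.mem_coe, Finset.mem_filter, hBad, Finset.mem_filter] at hS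
        rw [Finset.mem_coe, hBR, Finset.mem_filter, Fintype.mem_piFinset]
        refine ⟨fun g => Finset.mem_powerset.2 Finset.inter_subset_right, ?_⟩
        have h2 : ∑ x ∈ S, a x = val R + ∑ g, val (S ∩ T g) := by
          rw [← Finset.sum_inter_add_sum_sdiff S bi a, hS.2, add_comm]
          congr 1
          rw [hbi, Finset.inter_biUnion, Finset.sum_biUnion]
          intro g _ g' _ hne
          exact (hTd g g' hne).mono Finset.inter_subset_right Finset.inter_subset_right
        have h3 := hS.1.2
        rw [h2, ← add_assoc] at h3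
        exact h3
      · intro S hS S' hS' hSS
        rw [Finset.mem_coe, Finset.mem_filter] at hS hS'
        have e1 : ∀ g, S ∩ T g = S' ∩ T g := fun g => congrFun hSS g
        have e2 : S ∩ bi = S' ∩ bi := by
          rw [hbi, Finset.inter_biUnion, Finset.inter_biUnion]
          exact Finset.biUnion_congr rfl (fun g _ => e1 g)
        have e3 : S \ bi = S' \ bi := hS.2.trans hS'.2.symm
        rw [← Finset.sdiff_union_inter S bi, ← Finset.sdiff_union_inter S' bi, e2, e3]
    have h2 := boxk B θ hθ0 hθ1 G (fun g => (T g).powerset)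
      (fun _ x => ¬ LinearIndependent ℚ (fun i : Fin B => val (x i.succ) - val (x 0)))
      (by
        intro g
        have h := deg_count (T g).powerset val B ρ hρ0.le (by
          intro V hV hV' y'
          rw [Finset.card_powerset]
          push_cast
          exact lo_count (T g) a V y' P hPpos (hTr g V hV hV'))
        convert h) BR (Finset.filter_subset _ _) (by
        intro x hx hnd hall
        obtain ⟨η, hη⟩ := hW (y + val R + ∑ g, val (x g 0))
          (fun g i => val (x g i.succ) - val (x g 0)) (fun g => not_not.1 (hnd g))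
        have h3 := hall (fun g => (η g).elim 0 Fin.succ)
        rw [hBR, Finset.mem_filter] at h3
        apply h3.2
        have h4 : y + val R + ∑ g, val (x g ((η g).elim 0 Fin.succ)) =
            y + val R + ∑ g, val (x g 0) +
              ∑ g, (η g).elim 0 (fun i => val (x g i.succ) - val (x g 0)) := by
          rw [add_assoc (y + val R), ← Finset.sum_add_distrib]
          congr 1
          refine Finset.sum_congr rfl fun g _ => ?_
          rcases η g with _ | i
          · simp
          · simp
        rw [h4]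
        exact hη)
    have h3 : (∏ g, (((T g).powerset).card : ℝ)) = 2 ^ bi.card := by
      rw [hcardbi, ← Finset.prod_pow_eq_pow_sum]
      refine Finset.prod_congr rfl fun g _ => ?_
      rw [Finset.card_powerset]
      push_cast
      rfl
    rw [h3] at h2
    exact (Nat.cast_le.2 h1).trans h2
  rw [hfib]
  push_cast
  refine (Finset.sum_le_sum hmain).trans ?_
  rw [Finset.sum_const, nsmul_eq_mul, Finset.card_powerset, Finset.card_sdiff_of_subset hbiU]
  have hle := Finset.card_le_card hbiU
  have h5 : (2 : ℝ) ^ U.card = 2 ^ (U.card - bi.card) * 2 ^ bi.card := by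
    rw [← pow_add]
    congr 1
    omega
  rw [h5]
  push_cast
  apply le_of_eq
  ring

end Pool.Agent.Y918.QC
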