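import Mathlib
import Pool.Agent.W245.MixedTuples
import Pool.Agent.Y918.QC.Single

set_option autoImplicit false

/-!
# Relations of several random subset sums
-/

namespace Pool.Agent.Y918.QC

open Finset Module
open Pool.Agent.W245 (IndepOver IndepT famExt famExt_finite)
open Pool.Agent.H301R2.SSE (QB mem_QB)

theorem Rich.mono' {C : Type*} [AddCommGroup C] [Module ℚ C] {X : Type*} [DecidableEq X]
    {a : X → C} {U : Finset X} {B B' P P' : ℕ} (h : Rich a U B P) (hB : B' ≤ B)
    (hP : P' ≤ P) : Rich a U B' P' :=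
  fun V hV hV' => hP.trans (h V hV (lt_of_lt_of_le hV' hB))

open Classical in
theorem sub_one (D N : ℕ) : ∃ (B Q : ℕ) (M ε : ℝ), 0 ≤ M ∧ 0 < ε ∧
    ∀ (X : Type) [DecidableEq X] (U : Finset X) (a : X → ℂ) (P : ℕ), 0 < P →
    Rich a U B (Q * P) → ∀ W : Submodule ℚ ℂ, Module.Finite ℚ W → finrank ℚ W ≤ N → ∀ y : ℂ,
    ((U.powerset.filter (fun S => ¬ IndepOver W (pwr D (y + ∑ x ∈ S, a x)))).card : ℝ) ≤
      M * (P : ℝ) ^ (-ε) * (U.powerset.card : ℝ) := by
  classical
  have halg : Algebra.IsAlgebraic ℚ QB := algebraicClosure.isAlgebraic ℚ ℂ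
  have hacl : IsAlgClosed QB := (algebraicClosure.isAlgClosure ℚ ℂ).isAlgClosed
  obtain ⟨G, B₀, hGB⟩ := cubeQ ℚ QB ℂ D N
  set B := B₀ + 1 with hB
  have hBpos : 0 < B := Nat.succ_pos _
  have hBr : (1 : ℝ) ≤ B := by exact_mod_cast hBpos
  set e : ℝ := (1 / (B + 1 : ℝ)) ^ G with he
  have he0 : 0 < e := by
    rw [he]
    apply pow_pos
    exact one_div_pos.2 (by linarith)
  refine ⟨B, G * B, (G + 1) * (B : ℝ) ^ e, e / 2, by positivity, by positivity, ?_⟩
  intro X _ U a P hP hR W hW hWN y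
  have hPr : (0 : ℝ) < P := by exact_mod_cast hP
  have hcardU : (U.powerset.card : ℝ) = 2 ^ U.card := by
    rw [Finset.card_powerset]
    push_cast
    rfl
  have hsqrt : (Real.sqrt P) ^ e = (P : ℝ) ^ (e / 2) := by
    rw [Real.sqrt_eq_rpow, ← Real.rpow_mul hPr.le]
    congr 1
    ring
  rcases Nat.lt_or_ge P (B ^ 2) with hlt | hge
  · have h1 : ((U.powerset.filter (fun S => ¬ IndepOver W (pwr D (y + ∑ x ∈ S, a x)))).card : ℝ) ≤
        U.powerset.card := by exact_mod_cast Finset.card_le_card (Finset.filter_subset _ _)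
    have h2 : (1 : ℝ) ≤ (G + 1) * (B : ℝ) ^ e * (P : ℝ) ^ (-(e / 2)) := by
      have h3 : (P : ℝ) ^ (e / 2) ≤ (B : ℝ) ^ e := by
        rw [← hsqrt]
        apply Real.rpow_le_rpow (Real.sqrt_nonneg _) _ he0.le
        rw [Real.sqrt_le_left (by linarith)]
        exact_mod_cast hlt.le
      have h4 : 0 < (P : ℝ) ^ (e / 2) := Real.rpow_pos_of_pos hPr _
      rw [Real.rpow_neg hPr.le, ← div_eq_mul_inv, le_div_iff₀ h4, one_mul]
      have h5 : 0 ≤ (B : ℝ) ^ e := by positivity
      have h6 : (0 : ℝ) ≤ G := Nat.cast_nonneg _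
      nlinarith
    calc _ ≤ (U.powerset.card : ℝ) := h1
      _ = 1 * U.powerset.card := (one_mul _).symm
      _ ≤ _ := mul_le_mul_of_nonneg_right h2 (Nat.cast_nonneg _)
  · have hgrid : GridP D G B W := (hGB W hW hWN).mono le_rfl (Nat.le_succ _)
    have h1 := sub_single D G B hBpos U a P hge (by
      have : G * (P * B) = G * B * P := by ring
      rw [this]
      exact hR) W hgrid y
    refine h1.trans ?_
    rw [← he, Real.div_rpow (Nat.cast_nonneg _) (Real.sqrt_nonneg _), hsqrt, hcardU,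
      Real.rpow_neg hPr.le, ← div_eq_mul_inv]
    have h4 : 0 < (P : ℝ) ^ (e / 2) := Real.rpow_pos_of_pos hPr _
    have h5 : 0 ≤ (B : ℝ) ^ e := by positivity
    have h6 : (G : ℝ) * ((B : ℝ) ^ e / (P : ℝ) ^ (e / 2)) ≤
        (G + 1) * (B : ℝ) ^ e / (P : ℝ) ^ (e / 2) := by
      rw [mul_div_assoc']
      apply div_le_div_of_nonneg_right _ h4.le
      nlinarith
    exact mul_le_mul_of_nonneg_right h6 (by positivity)

open Classical in
theorem sub_tuples (D k : ℕ) : ∀ N : ℕ, ∃ (B Q : ℕ) (M ε : ℝ), 0 ≤ M ∧ 0 < ε ∧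
    ∀ (X : Type) [DecidableEq X] (U : Finset X) (a : X → ℂ) (P : ℕ), 0 < P →
    Rich a U B (Q * P) → ∀ W : Submodule ℚ ℂ, Module.Finite ℚ W → finrank ℚ W ≤ N →
    ∀ y : Fin k → ℂ,
    (((Fintype.piFinset fun _ : Fin k => U.powerset).filter
      (fun S => ¬ IndepT W (fun j => pwr D (y j + ∑ x ∈ S j, a x)))).card : ℝ) ≤
      M * (P : ℝ) ^ (-ε) * (U.powerset.card : ℝ) ^ k := by
  classical
  induction k with
  | zero =>
    intro N
    refine ⟨0, 0, 0, 1, le_rfl, one_pos, ?_⟩
    intro X _ U a P _ _ W _ _ y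
    rw [Finset.filter_false_of_mem]
    · simp
    · intro S _ hS
      exact hS (IndepT.zero _ _)
  | succ k ih =>
    intro N
    obtain ⟨B₁, Q₁, M₁, ε₁, hM₁, hε₁, h₁⟩ := sub_one D N
    obtain ⟨B₂, Q₂, M₂, ε₂, hM₂, hε₂, h₂⟩ := ih (N * Fintype.card (Fin (D + 1)))
    refine ⟨max B₁ B₂, max Q₁ Q₂, M₁ + M₂, min ε₁ ε₂, add_nonneg hM₁ hM₂, lt_min hε₁ hε₂, ?_⟩
    intro X _ U a P hP hR W hW hWN y
    have hP1 : (1 : ℝ) ≤ P := by exact_mod_cast hP
    set Ω := U.powerset with hΩ
    set ω : ℝ := (Ω.card : ℝ) with hω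
    have hω0 : 0 ≤ ω := Nat.cast_nonneg _
    set ε := min ε₁ ε₂ with hε
    set q : ℝ := (P : ℝ) ^ (-ε) with hq
    have hq0 : 0 ≤ q := Real.rpow_nonneg (by linarith) _
    have hq1 : (P : ℝ) ^ (-ε₁) ≤ q :=
      Real.rpow_le_rpow_of_exponent_le hP1 (neg_le_neg (min_le_left _ _))
    have hq2 : (P : ℝ) ^ (-ε₂) ≤ q :=
      Real.rpow_le_rpow_of_exponent_le hP1 (neg_le_neg (min_le_right _ _))
    have hR₁ : Rich a U B₁ (Q₁ * P) :=
      hR.mono' (le_max_left _ _) (Nat.mul_le_mul_right _ (le_max_left _ _))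
    have hR₂ : Rich a U B₂ (Q₂ * P) :=
      hR.mono' (le_max_right _ _) (Nat.mul_le_mul_right _ (le_max_right _ _))
    set F := (Fintype.piFinset fun _ : Fin (k + 1) => Ω).filter
      (fun S => ¬ IndepT W (fun j => pwr D (y j + ∑ x ∈ S j, a x))) with hF
    set H := Ω.filter (fun S => ¬ IndepOver W (pwr D (y 0 + ∑ x ∈ S, a x))) with hH
    have hHc : (H.card : ℝ) ≤ M₁ * q * ω := by
      refine (h₁ X U a P hP hR₁ W hW hWN (y 0)).trans ?_
      apply mul_le_mul_of_nonneg_right _ hω0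
      exact mul_le_mul_of_nonneg_left hq1 hM₁
    have hfib : F.card = ∑ u ∈ Ω, (F.filter (fun S => S 0 = u)).card := by
      apply Finset.card_eq_sum_card_fiberwise
      intro S hS
      rw [Finset.mem_coe, hF, Finset.mem_filter, Fintype.mem_piFinset] at hS
      exact hS.1 0
    have hinj : ∀ u, Set.InjOn (fun S : Fin (k + 1) → Finset X => Fin.tail S)
        (F.filter (fun S => S 0 = u) : Finset (Fin (k + 1) → Finset X)) := by
      intro u S hS S' hS' hSS
      rw [Finset.mem_coe, Finset.mem_filter] at hS hS'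
      have h3 : Fin.tail S = Fin.tail S' := hSS
      rw [← Fin.cons_self_tail S, ← Fin.cons_self_tail S', hS.2, hS'.2, h3]
    have hall : ∀ u ∈ Ω, ((F.filter (fun S => S 0 = u)).card : ℝ) ≤
        (if u ∈ H then ω ^ k else 0) + M₂ * q * ω ^ k := by
      intro u hu
      have hnn : 0 ≤ M₂ * q * ω ^ k := mul_nonneg (mul_nonneg hM₂ hq0) (pow_nonneg hω0 _)
      by_cases h0 : u ∈ H
      · rw [if_pos h0]
        have h3 : (F.filter (fun S => S 0 = u)).card ≤ Ω.card ^ k := by
          rw [← Fintype.card_piFinset_const]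
          refine Finset.card_le_card_of_injOn (fun S => Fin.tail S) ?_ (hinj u)
          intro S hS
          rw [Finset.mem_coe, Finset.mem_filter, hF, Finset.mem_filter, Fintype.mem_piFinset] at hS
          rw [Finset.mem_coe, Fintype.mem_piFinset]
          exact fun j => hS.1.1 j.succ
        have h4 : ((F.filter (fun S => S 0 = u)).card : ℝ) ≤ ω ^ k := by
          rw [hω]
          exact_mod_cast h3
        linarith
      · rw [if_neg h0, zero_add]
        have hgood : IndepOver W (pwr D (y 0 + ∑ x ∈ u, a x)) := by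
          by_contra hcon
          exact h0 (Finset.mem_filter.2 ⟨hu, hcon⟩)
        obtain ⟨hfin, hrk⟩ := famExt_finite W N hWN (pwr D (y 0 + ∑ x ∈ u, a x))
        have h3 := h₂ X U a P hP hR₂ _ hfin hrk (Fin.tail y)
        refine le_trans (Nat.cast_le.2 ?_) (h3.trans ?_)
        · refine Finset.card_le_card_of_injOn (fun S => Fin.tail S) ?_ (hinj u)
          intro S hS
          rw [Finset.mem_coe, Finset.mem_filter, hF, Finset.mem_filter, Fintype.mem_piFinset] at hS
          rw [Finset.mem_coe, Finset.mem_filter, Fintype.mem_piFinset]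
          refine ⟨fun j => hS.1.1 j.succ, ?_⟩
          intro h7
          apply hS.1.2
          have h8 := IndepT.cons hgood h7
          have h9 : (fun j => pwr D (y j + ∑ x ∈ S j, a x)) =
              (Fin.cons (pwr D (y 0 + ∑ x ∈ u, a x))
                (fun j => pwr D (Fin.tail y j + ∑ x ∈ (Fin.tail S) j, a x)) :
                Fin (k + 1) → Fin (D + 1) → ℂ) := by
            funext j
            refine Fin.cases ?_ (fun j => ?_) j
            · rw [Fin.cons_zero, hS.2]
            · rw [Fin.cons_succ]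
              rfl
          rw [h9]
          exact h8
        · rw [← hω]
          apply mul_le_mul_of_nonneg_right _ (pow_nonneg hω0 _)
          exact mul_le_mul_of_nonneg_left hq2 hM₂
    rw [hfib]
    push_cast
    refine (Finset.sum_le_sum hall).trans ?_
    rw [Finset.sum_add_distrib, ← Finset.sum_filter, Finset.sum_const, Finset.sum_const,
      nsmul_eq_mul, nsmul_eq_mul, ← hω]
    have h5 : ((Ω.filter (fun u => u ∈ H)).card : ℝ) ≤ M₁ * q * ω := by
      refine le_trans (Nat.cast_le.2 (Finset.card_le_card ?_)) hHc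
      intro u hu
      exact (Finset.mem_filter.1 hu).2
    have h6 : ((Ω.filter (fun u => u ∈ H)).card : ℝ) * ω ^ k ≤ (M₁ * q * ω) * ω ^ k :=
      mul_le_mul_of_nonneg_right h5 (pow_nonneg hω0 _)
    calc _ ≤ (M₁ * q * ω) * ω ^ k + ω * (M₂ * q * ω ^ k) := by linarith
      _ = _ := by ring

/-- Exponents. -/
noncomputable def expoQ {m D : ℕ} (s : Fin m → Fin (D + 1)) : Fin m →₀ ℕ :=
  Finsupp.equivFunOnFinite.symm (fun p => (s p : ℕ))

theorem expoQ_injective {m D : ℕ} : Function.Injective (expoQ (m := m) (D := D)) := by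
  intro s s' h
  funext i
  exact Fin.ext (DFunLike.congr_fun h i)

/-- From independence to polynomials with coefficients in the space. -/
theorem poly_of_indepTW {m D : ℕ} (W : Submodule ℚ ℂ) (T : Fin m → ℂ)
    (h : IndepT W (fun j => pwr D (T j)))
    (p : MvPolynomial (Fin m) ℂ) (hW : ∀ M, p.coeff M ∈ W) (hdeg : ∀ i, p.degreeOf i ≤ D)
    (h0 : MvPolynomial.eval T p = 0) : p = 0 := by
  classical
  have hsupp : p.support ⊆ (univ : Finset (Fin m → Fin (D + 1))).image expoQ := by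
    intro M hM
    rw [Finset.mem_image]
    refine ⟨fun i => ⟨M i,
      Nat.lt_succ_of_le ((MvPolynomial.degreeOf_le_iff.1 (hdeg i)) M hM)⟩,
      Finset.mem_univ _, ?_⟩
    ext v
    rfl
  have h1 : ∑ s : Fin m → Fin (D + 1), p.coeff (expoQ s) * ∏ i, pwr D (T i) (s i) = 0 := by
    rw [← h0, MvPolynomial.eval_eq']
    rw [Finset.sum_subset hsupp (by
      intro M _ hM
      rw [MvPolynomial.notMem_support_iff.1 hM, zero_mul])]
    rw [Finset.sum_image (fun a _ b _ h => expoQ_injective h)]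
    rfl
  have h2 := h (fun s => p.coeff (expoQ s)) (fun s => hW _) h1
  ext M
  rw [MvPolynomial.coeff_zero]
  by_cases hM : M ∈ p.support
  · obtain ⟨s, _, rfl⟩ := Finset.mem_image.1 (hsupp hM)
    exact h2 s
  · exact MvPolynomial.notMem_support_iff.1 hM

end Pool.Agent.Y918.QC
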