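import Mathlib
import Pool.Agent.Y918.QC.Tup

set_option autoImplicit false

/-!
# Subset sums of several families, and sums of a bounded number of terms
-/

namespace Pool.Agent.Y918.QC

open Finset Module
open Pool.Agent.W245 (IndepOver IndepT famExt famExt_finite)
open Pool.Agent.H301R2.SSE (QB mem_QB)

open Classical in
/-- Almost all tuples of subset sums of several families. -/
theorem fam_tuples (D k : ℕ) : ∀ N : ℕ, ∃ (B Q : ℕ) (M ε : ℝ), 0 ≤ M ∧ 0 < ε ∧
    ∀ (X : Type) [DecidableEq X] (U : Fin k → Finset X) (a : Fin k → X → ℂ) (P : ℕ), 0 < P →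
    (∀ j, Rich (a j) (U j) B (Q * P)) → ∀ W : Submodule ℚ ℂ, Module.Finite ℚ W →
    finrank ℚ W ≤ N → ∀ y : Fin k → ℂ,
    (((Fintype.piFinset fun j : Fin k => (U j).powerset).filter
      (fun S => ¬ IndepT W (fun j => pwr D (y j + ∑ x ∈ S j, a j x)))).card : ℝ) ≤
      M * (P : ℝ) ^ (-ε) * ∏ j, ((U j).powerset.card : ℝ) := by
  classical
  induction k with
  | zero =>
    intro N
    refine ⟨0, 0, 0, 1, le_rfl, one_pos, ?_⟩
    intro X _ U a P _ _ W _ _ y
    rw [Finset.filter_false_of_mem]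
    · simp
    · intro S _ hS
      exact hS (IndepT.zero _ _)
  | succ k ih =>
    intro N
    obtain ⟨B₁, Q₁, M₁, ε₁, hM₁, hε₁, h₁⟩ := sub_one D N
    obtain ⟨B₂, Q₂, M₂, ε₂, hM₂, hε₂, h₂⟩ := ih (N * Fintype.card (Fin (D + 1)))
    refine ⟨max B₁ B₂, max Q₁ Q₂, M₁ + M₂, min ε₁ ε₂, add_nonneg hM₁ hM₂, lt_min hε₁ hε₂, ?_⟩
    intro X _ U a P hP hR W hW hWN y
    have hP1 : (1 : ℝ) ≤ P := by exact_mod_cast hP
    obtain ⟨Ω, hΩ⟩ : ∃ Ω, Ω = (U 0).powerset := ⟨_, rfl⟩
    obtain ⟨ω, hω⟩ : ∃ ω : ℝ, ω = (Ω.card : ℝ) := ⟨_, rfl⟩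
    have hω0 : 0 ≤ ω := by rw [hω]; exact Nat.cast_nonneg _
    obtain ⟨ν, hν⟩ : ∃ ν : ℝ, ν = ∏ j : Fin k, ((U j.succ).powerset.card : ℝ) := ⟨_, rfl⟩
    have hν0 : 0 ≤ ν := by rw [hν]; exact Finset.prod_nonneg fun j _ => Nat.cast_nonneg _
    obtain ⟨q, hq⟩ : ∃ q : ℝ, q = (P : ℝ) ^ (-(min ε₁ ε₂)) := ⟨_, rfl⟩
    have hq0 : 0 ≤ q := by rw [hq]; exact Real.rpow_nonneg (by linarith) _
    have hq1 : (P : ℝ) ^ (-ε₁) ≤ q := by
      rw [hq]
      exact Real.rpow_le_rpow_of_exponent_le hP1 (neg_le_neg (min_le_left _ _))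
    have hq2 : (P : ℝ) ^ (-ε₂) ≤ q := by
      rw [hq]
      exact Real.rpow_le_rpow_of_exponent_le hP1 (neg_le_neg (min_le_right _ _))
    have hR₁ : Rich (a 0) (U 0) B₁ (Q₁ * P) :=
      (hR 0).mono' (le_max_left _ _) (Nat.mul_le_mul_right _ (le_max_left _ _))
    have hR₂ : ∀ j : Fin k, Rich (a j.succ) (U j.succ) B₂ (Q₂ * P) := fun j =>
      (hR j.succ).mono' (le_max_right _ _) (Nat.mul_le_mul_right _ (le_max_right _ _))
    set F := (Fintype.piFinset fun j : Fin (k + 1) => (U j).powerset).filter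
      (fun S => ¬ IndepT W (fun j => pwr D (y j + ∑ x ∈ S j, a j x))) with hF
    set H := Ω.filter (fun S => ¬ IndepOver W (pwr D (y 0 + ∑ x ∈ S, a 0 x))) with hH
    have hHc : (H.card : ℝ) ≤ M₁ * q * ω := by
      rw [hω, hH, hΩ]
      refine (h₁ X (U 0) (a 0) P hP hR₁ W hW hWN (y 0)).trans ?_
      apply mul_le_mul_of_nonneg_right _ (Nat.cast_nonneg _)
      exact mul_le_mul_of_nonneg_left hq1 hM₁
    have hfib : F.card = ∑ u ∈ Ω, (F.filter (fun S => S 0 = u)).card := by
      apply Finset.card_eq_sum_card_fiberwise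
      intro S hS
      rw [Finset.mem_coe, hF, Finset.mem_filter, Fintype.mem_piFinset] at hS
      rw [Finset.mem_coe, hΩ]
      exact hS.1 0
    have hinj : ∀ u, Set.InjOn (fun S : Fin (k + 1) → Finset X => Fin.tail S)
        (F.filter (fun S => S 0 = u) : Finset (Fin (k + 1) → Finset X)) := by
      intro u S hS S' hS' hSS
      rw [Finset.mem_coe, Finset.mem_filter] at hS hS'
      have h3 : Fin.tail S = Fin.tail S' := hSS
      rw [← Fin.cons_self_tail S, ← Fin.cons_self_tail S', hS.2, hS'.2, h3]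
    have hall : ∀ u ∈ Ω, ((F.filter (fun S => S 0 = u)).card : ℝ) ≤
        (if u ∈ H then ν else 0) + M₂ * q * ν := by
      intro u hu
      have hnn : 0 ≤ M₂ * q * ν := mul_nonneg (mul_nonneg hM₂ hq0) hν0
      by_cases h0 : u ∈ H
      · rw [if_pos h0]
        have h3 : (F.filter (fun S => S 0 = u)).card ≤ ∏ j : Fin k, (U j.succ).powerset.card := by
          rw [← Fintype.card_piFinset]
          refine Finset.card_le_card_of_injOn (fun S => Fin.tail S) ?_ (hinj u)
          intro S hS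
          rw [Finset.mem_coe, Finset.mem_filter, hF, Finset.mem_filter, Fintype.mem_piFinset] at hS
          rw [Finset.mem_coe, Fintype.mem_piFinset]
          exact fun j => hS.1.1 j.succ
        have h4 : ((F.filter (fun S => S 0 = u)).card : ℝ) ≤ ν := by
          rw [hν]
          exact_mod_cast h3
        linarith
      · rw [if_neg h0, zero_add]
        have hgood : IndepOver W (pwr D (y 0 + ∑ x ∈ u, a 0 x)) := by
          by_contra hcon
          exact h0 (Finset.mem_filter.2 ⟨hu, hcon⟩)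
        obtain ⟨hfin, hrk⟩ := famExt_finite W N hWN (pwr D (y 0 + ∑ x ∈ u, a 0 x))
        have h3 := h₂ X (fun j => U j.succ) (fun j => a j.succ) P hP hR₂ _ hfin hrk (Fin.tail y)
        refine le_trans (Nat.cast_le.2 ?_) (h3.trans ?_)
        · refine Finset.card_le_card_of_injOn (fun S => Fin.tail S) ?_ (hinj u)
          intro S hS
          rw [Finset.mem_coe, Finset.mem_filter, hF, Finset.mem_filter, Fintype.mem_piFinset] at hS
          rw [Finset.mem_coe, Finset.mem_filter, Fintype.mem_piFinset]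
          refine ⟨fun j => hS.1.1 j.succ, ?_⟩
          intro h7
          apply hS.1.2
          have h8 := IndepT.cons hgood h7
          have h9 : (fun j => pwr D (y j + ∑ x ∈ S j, a j x)) =
              (Fin.cons (pwr D (y 0 + ∑ x ∈ u, a 0 x))
                (fun j => pwr D (Fin.tail y j + ∑ x ∈ (Fin.tail S) j, a j.succ x)) :
                Fin (k + 1) → Fin (D + 1) → ℂ) := by
            funext j
            refine Fin.cases ?_ (fun j => ?_) j
            · rw [Fin.cons_zero, hS.2]
            · rw [Fin.cons_succ]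
              rfl
          rw [h9]
          exact h8
        · rw [← hν]
          apply mul_le_mul_of_nonneg_right _ hν0
          exact mul_le_mul_of_nonneg_left hq2 hM₂
    rw [hfib, Fin.prod_univ_succ, ← hν, ← hΩ, ← hω, ← hq]
    push_cast
    refine (Finset.sum_le_sum hall).trans ?_
    rw [Finset.sum_add_distrib, ← Finset.sum_filter, Finset.sum_const, Finset.sum_const,
      nsmul_eq_mul, nsmul_eq_mul, ← hω]
    have h5 : ((Ω.filter (fun u => u ∈ H)).card : ℝ) ≤ M₁ * q * ω := by
      refine le_trans (Nat.cast_le.2 (Finset.card_le_card ?_)) hHc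
      intro u hu
      exact (Finset.mem_filter.1 hu).2
    have h6 : ((Ω.filter (fun u => u ∈ H)).card : ℝ) * ν ≤ (M₁ * q * ω) * ν :=
      mul_le_mul_of_nonneg_right h5 hν0
    calc _ ≤ (M₁ * q * ω) * ν + ω * (M₂ * q * ν) := by linarith
      _ = _ := by ring

/-- A vector with the value `y + x` for a further element, outside of the groups. -/
theorem exists_short {X : Type*} [DecidableEq X] {D G B : ℕ} (hB : 0 < B) {W : Submodule ℚ ℂ}
    (hW : GridP D G B W) (a : X → ℂ) (T : Fin (G + 1) → Finset X)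
    (hTd : ∀ g g', g ≠ g' → Disjoint (T g) (T g')) (hT : ∀ g, Rich a (T g) B 1) (y : ℂ) :
    ∃ S : Finset X, S.Nonempty ∧ S ⊆ univ.biUnion T ∧ S.card ≤ G + 1 ∧
      IndepOver W (pwr D (y + ∑ x ∈ S, a x)) := by
  classical
  -- an element of the first group
  have h0 : (T 0).Nonempty := by
    have h1 := hT 0 ⊥ inferInstance (by rw [finrank_bot]; exact hB)
    obtain ⟨x, hx⟩ := Finset.card_pos.1 (lt_of_lt_of_le Nat.zero_lt_one h1)
    exact ⟨x, (Finset.mem_filter.1 hx).1⟩
  obtain ⟨x₀, hx₀⟩ := h0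
  -- independent vectors of the other groups
  have h1 : ∀ g : Fin G, ∃ w : Fin B → X, (∀ i, w i ∈ T g.succ) ∧
      LinearIndependent ℚ (fun i => a (w i)) := by
    intro g
    have h2 : ∀ n ≤ B, ∃ w : Fin n → X, (∀ i, w i ∈ T g.succ) ∧
        LinearIndependent ℚ (fun i => a (w i)) := by
      intro n
      induction n with
      | zero => exact fun _ => ⟨Fin.elim0, fun i => i.elim0, linearIndependent_empty_type⟩
      | succ n ih =>
        intro hn
        obtain ⟨w, hw, hli⟩ := ih (by omega)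
        have hfin : Module.Finite ℚ (Submodule.span ℚ (Set.range fun i => a (w i))) :=
          FiniteDimensional.span_of_finite ℚ (Set.finite_range _)
        have hrk : finrank ℚ (Submodule.span ℚ (Set.range fun i => a (w i))) < B := by
          have h3 := finrank_range_le_card (R := ℚ) (fun i => a (w i))
          rw [Fintype.card_fin] at h3
          have h4 : finrank ℚ (Submodule.span ℚ (Set.range fun i => a (w i))) ≤ n := h3
          omega
        have h3 := hT g.succ _ hfin hrk
        obtain ⟨x, hx⟩ := Finset.card_pos.1 (lt_of_lt_of_le Nat.zero_lt_one h3)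
        rw [Finset.mem_filter] at hx
        refine ⟨Fin.cons x w, fun i => ?_, ?_⟩
        · refine Fin.cases ?_ (fun i => ?_) i
          · exact hx.1
          · exact hw i
        · have h5 : (fun i => a ((Fin.cons x w : Fin (n + 1) → X) i)) =
              (Fin.cons (a x) (fun i => a (w i)) : Fin (n + 1) → ℂ) := by
            funext i
            refine Fin.cases ?_ (fun i => ?_) i
            · rfl
            · rfl
          rw [h5, linearIndependent_finCons]
          exact ⟨hli, hx.2⟩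
    exact h2 B le_rfl
  choose w hw hli using h1
  obtain ⟨η, hη⟩ := hW (y + a x₀) (fun g i => a (w g i)) hli
  let R : Fin G → Finset X := fun g => (η g).elim ∅ (fun i => {w g i})
  have hR : ∀ g, R g ⊆ T g.succ := by
    intro g x hx
    simp only [R] at hx
    rcases h : η g with _ | i
    · rw [h] at hx
      simp at hx
    · rw [h] at hx
      simp only [Option.elim_some, Finset.mem_singleton] at hx
      rw [hx]
      exact hw g i
  have hRc : ∀ g, (R g).card ≤ 1 := by
    intro g
    simp only [R]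
    rcases η g with _ | i
    · simp
    · simp
  have hRd : ∀ g g', g ≠ g' → Disjoint (R g) (R g') := fun g g' h =>
    (hTd g.succ g'.succ (fun h' => h (Fin.succ_injective _ h'))).mono (hR g) (hR g')
  have hx₀R : x₀ ∉ univ.biUnion R := by
    rw [Finset.mem_biUnion]
    rintro ⟨g, _, hg⟩
    exact Finset.disjoint_left.1 (hTd 0 g.succ (Fin.succ_ne_zero g).symm) hx₀ (hR g hg)
  refine ⟨insert x₀ (univ.biUnion R), Finset.insert_nonempty _ _, ?_, ?_, ?_⟩
  · intro x hx
    rw [Finset.mem_biUnion]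
    rcases Finset.mem_insert.1 hx with rfl | hx
    · exact ⟨0, Finset.mem_univ _, hx₀⟩
    · obtain ⟨g, _, hg⟩ := Finset.mem_biUnion.1 hx
      exact ⟨g.succ, Finset.mem_univ _, hR g hg⟩
  · refine (Finset.card_insert_le _ _).trans ?_
    have h3 : (univ.biUnion R).card ≤ ∑ g : Fin G, 1 :=
      Finset.card_biUnion_le.trans (Finset.sum_le_sum fun g _ => hRc g)
    rw [Finset.sum_const, Finset.card_univ, Fintype.card_fin, smul_eq_mul, mul_one] at h3
    omega
  · have h3 : y + ∑ x ∈ insert x₀ (univ.biUnion R), a x =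
        y + a x₀ + ∑ g, (η g).elim 0 (fun i => a (w g i)) := by
      rw [Finset.sum_insert hx₀R, Finset.sum_biUnion (fun g _ g' _ h => hRd g g' h), add_assoc]
      congr 2
      refine Finset.sum_congr rfl fun g _ => ?_
      simp only [R]
      rcases η g with _ | i
      · simp
      · simp
    rw [h3]
    exact hη

/-- Many disjoint short subsets with a good sum. -/
theorem short_one (D N : ℕ) : ∃ (B m : ℕ), 0 < m ∧
    ∀ (X : Type) [DecidableEq X] (U : Finset X) (a : X → ℂ) (n : ℕ),
    Rich a U B (m * n) → ∀ W : Submodule ℚ ℂ, Module.Finite ℚ W → finrank ℚ W ≤ N → ∀ y : ℂ,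
    ∃ F : Fin n → Finset X, Function.Injective F ∧ (∀ r, F r ⊆ U) ∧ (∀ r, (F r).card ≤ m) ∧
      ∀ r, IndepOver W (pwr D (y + ∑ x ∈ F r, a x)) := by
  classical
  have halg : Algebra.IsAlgebraic ℚ QB := algebraicClosure.isAlgebraic ℚ ℂ
  have hacl : IsAlgClosed QB := (algebraicClosure.isAlgClosure ℚ ℂ).isAlgClosed
  obtain ⟨G, B₀, hGB⟩ := cubeQ ℚ QB ℂ D N
  have hBpos : 0 < B₀ + 1 := Nat.succ_pos _
  refine ⟨B₀ + 1, (G + 1) * (B₀ + 1), Nat.mul_pos (Nat.succ_pos _) hBpos, ?_⟩
  intro X _ U a n hR W hW hWN y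
  have hgrid : GridP D G (B₀ + 1) W := (hGB W hW hWN).mono le_rfl (Nat.le_succ _)
  obtain ⟨T, hTU, hTd, hTr⟩ := Rich.exists_groups hBpos 1 (n * (G + 1)) (U := U) (a := a) (by
    have : n * (G + 1) * (1 * (B₀ + 1)) = (G + 1) * (B₀ + 1) * n := by ring
    rw [this]
    exact hR)
  let e : Fin n × Fin (G + 1) ≃ Fin (n * (G + 1)) := finProdFinEquiv
  have h1 : ∀ r : Fin n, ∃ S : Finset X, S.Nonempty ∧ S ⊆ univ.biUnion (fun g => T (e (r, g))) ∧
      S.card ≤ G + 1 ∧ IndepOver W (pwr D (y + ∑ x ∈ S, a x)) := by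
    intro r
    apply exists_short hBpos hgrid a (fun g => T (e (r, g)))
    · intro g g' hgg
      apply hTd
      intro h
      apply hgg
      have h2 := e.injective h
      exact (Prod.mk.injEq _ _ _ _ ▸ h2).2
    · intro g
      exact hTr _
  choose F hF1 hF2 hF3 hF4 using h1
  have hdis : ∀ r r', r ≠ r' → Disjoint (F r) (F r') := by
    intro r r' hrr
    rw [Finset.disjoint_left]
    intro x hx hx'
    obtain ⟨g, _, hg⟩ := Finset.mem_biUnion.1 (hF2 r hx)
    obtain ⟨g', _, hg'⟩ := Finset.mem_biUnion.1 (hF2 r' hx')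
    refine Finset.disjoint_left.1 (hTd (e (r, g)) (e (r', g')) ?_) hg hg'
    intro h
    have h2 := e.injective h
    exact hrr (Prod.mk.injEq _ _ _ _ ▸ h2).1
  refine ⟨F, ?_, ?_, ?_, hF4⟩
  · intro r r' h
    by_contra hne
    obtain ⟨x, hx⟩ := hF1 r
    exact Finset.disjoint_left.1 (hdis r r' hne) hx (h ▸ hx)
  · intro r x hx
    obtain ⟨g, _, hg⟩ := Finset.mem_biUnion.1 (hF2 r hx)
    exact hTU _ hg
  · intro r
    refine (hF3 r).trans ?_
    calc G + 1 = (G + 1) * 1 := (mul_one _).symm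
      _ ≤ _ := Nat.mul_le_mul_left _ hBpos

open Classical in
/-- Many tuples of short sums without relations. -/
theorem short_tuples (D k : ℕ) : ∀ N : ℕ, ∃ (B m : ℕ), 0 < m ∧
    ∀ (X : Type) [DecidableEq X] (U : Fin k → Finset X) (a : Fin k → X → ℂ) (n : ℕ),
    (∀ j, Rich (a j) (U j) B (m * n)) → ∀ W : Submodule ℚ ℂ, Module.Finite ℚ W →
    finrank ℚ W ≤ N → ∀ y : Fin k → ℂ,
    n ^ k ≤ ((Fintype.piFinset fun j : Fin k => (U j).powerset.filter (fun S => S.card ≤ m)).filter
      (fun S => IndepT W (fun j => pwr D (y j + ∑ x ∈ S j, a j x)))).card := by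
  classical
  induction k with
  | zero =>
    intro N
    refine ⟨0, 1, Nat.one_pos, ?_⟩
    intro X _ U a n _ W _ _ y
    rw [pow_zero]
    apply Nat.succ_le_of_lt
    rw [Finset.card_pos]
    refine ⟨Fin.elim0, ?_⟩
    rw [Finset.mem_filter, Fintype.mem_piFinset]
    exact ⟨fun j => j.elim0, IndepT.zero _ _⟩
  | succ k ih =>
    intro N
    obtain ⟨B₁, m₁, hm₁, h₁⟩ := short_one D N
    obtain ⟨B₂, m₂, hm₂, h₂⟩ := ih (N * Fintype.card (Fin (D + 1)))
    refine ⟨max B₁ B₂, max m₁ m₂, lt_of_lt_of_le hm₁ (le_max_left _ _), ?_⟩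
    intro X _ U a n hR W hW hWN y
    obtain ⟨m, hm⟩ : ∃ m, m = max m₁ m₂ := ⟨_, rfl⟩
    have hR₁ : Rich (a 0) (U 0) B₁ (m₁ * n) :=
      (hR 0).mono' (le_max_left _ _) (Nat.mul_le_mul_right _ (le_max_left _ _))
    have hR₂ : ∀ j : Fin k, Rich (a j.succ) (U j.succ) B₂ (m₂ * n) := fun j =>
      (hR j.succ).mono' (le_max_right _ _) (Nat.mul_le_mul_right _ (le_max_right _ _))
    obtain ⟨F, hFinj, hFU, hFc, hFi⟩ := h₁ X (U 0) (a 0) n hR₁ W hW hWN (y 0)
    rw [← hm]
    set Y := (Fintype.piFinset fun j : Fin (k + 1) =>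
      (U j).powerset.filter (fun S => S.card ≤ m)).filter
      (fun S => IndepT W (fun j => pwr D (y j + ∑ x ∈ S j, a j x))) with hY
    -- the tails
    have htail : ∀ r : Fin n, n ^ k ≤ (Y.filter (fun S => S 0 = F r)).card := by
      intro r
      obtain ⟨hfin, hrk⟩ := famExt_finite W N hWN (pwr D (y 0 + ∑ x ∈ F r, a 0 x))
      have h3 := h₂ X (fun j => U j.succ) (fun j => a j.succ) n hR₂ _ hfin hrk (Fin.tail y)
      refine h3.trans ?_
      refine Finset.card_le_card_of_injOn (fun S => (Fin.cons (F r) S : Fin (k + 1) → Finset X))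
        ?_ ?_
      · intro S hS
        rw [Finset.mem_coe, Finset.mem_filter, Fintype.mem_piFinset] at hS
        rw [Finset.mem_coe, Finset.mem_filter, hY, Finset.mem_filter, Fintype.mem_piFinset]
        refine ⟨⟨fun j => ?_, ?_⟩, rfl⟩
        · refine Fin.cases ?_ (fun j => ?_) j
          · rw [Finset.mem_filter, Finset.mem_powerset]
            exact ⟨hFU r, (hFc r).trans (by rw [hm]; exact le_max_left _ _)⟩
          · rw [Finset.mem_filter]
            have h4 := Finset.mem_filter.1 (hS.1 j)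
            exact ⟨h4.1, h4.2.trans (by rw [hm]; exact le_max_right _ _)⟩
        · have h8 := IndepT.cons (hFi r) hS.2
          have h9 : (fun j => pwr D (y j + ∑ x ∈ (Fin.cons (F r) S : Fin (k + 1) → Finset X) j,
              a j x)) =
              (Fin.cons (pwr D (y 0 + ∑ x ∈ F r, a 0 x))
                (fun j => pwr D (Fin.tail y j + ∑ x ∈ S j, a j.succ x)) :
                Fin (k + 1) → Fin (D + 1) → ℂ) := by
            funext j
            refine Fin.cases ?_ (fun j => ?_) j
            · rfl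
            · rfl
          rw [h9]
          exact h8
      · intro S _ S' _ hSS
        exact (Fin.cons_inj.1 hSS).2
    have h5 : (univ.biUnion fun r : Fin n => Y.filter (fun S => S 0 = F r)) ⊆ Y := by
      intro S hS
      obtain ⟨r, _, hr⟩ := Finset.mem_biUnion.1 hS
      exact (Finset.mem_filter.1 hr).1
    refine le_trans ?_ (Finset.card_le_card h5)
    rw [Finset.card_biUnion]
    · calc n ^ (k + 1) = ∑ _r : Fin n, n ^ k := by
            rw [Finset.sum_const, Finset.card_univ, Fintype.card_fin, smul_eq_mul, pow_succ,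
              mul_comm]
        _ ≤ _ := Finset.sum_le_sum fun r _ => htail r
    · intro r _ r' _ hrr
      rw [Function.onFun, Finset.disjoint_left]
      intro S hS hS'
      rw [Finset.mem_filter] at hS hS'
      exact hrr (hFinj (hS.2.symm.trans hS'.2))

end Pool.Agent.Y918.QC
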