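import Mathlib
import Pool.Agent.TH818.SA.Sub
import Pool.Agent.Y918.QC.Tup

set_option autoImplicit false

/-!
# Random subset sums of odd zeta values
-/

namespace Pool.Agent.Y918.QC

open Finset Module
open Pool.Agent.W245 (IndepOver IndepT famExt famExt_finite)

/-- The odd integers from `3` to `s`. -/
def odds (s : ℕ) : Finset ℕ := (Finset.Icc 3 s).filter (fun i => Odd i)

theorem mem_odds {s i : ℕ} : i ∈ odds s ↔ 3 ≤ i ∧ i ≤ s ∧ Odd i := by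
  unfold odds
  rw [Finset.mem_filter, Finset.mem_Icc, and_assoc]

/-- The size of the blocks. -/
noncomputable def blk (s : ℕ) : ℕ := ⌈(s : ℝ) ^ (1 / 4 : ℝ)⌉₊

theorem loglog_tendsto :
    Filter.Tendsto (fun s : ℕ => Real.log (Real.log (s : ℝ))) Filter.atTop Filter.atTop :=
  Real.tendsto_log_atTop.comp (Real.tendsto_log_atTop.comp tendsto_natCast_atTop_atTop)

theorem rpow_tendsto {e : ℝ} (he : 0 < e) :
    Filter.Tendsto (fun s : ℕ => (s : ℝ) ^ e) Filter.atTop Filter.atTop :=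
  (tendsto_rpow_atTop he).comp tendsto_natCast_atTop_atTop

/-- The comparison of the sizes. -/
theorem size_cmp (B Q : ℕ) (hB : 0 < B) : ∃ s₁ : ℕ, ∀ s ≥ s₁,
    ((B : ℕ) : ℝ) ≤ (1 / 2000) * Real.log (Real.log s) ∧
    ((Q * blk s : ℕ) : ℝ) ≤ (1 / 2000) / B * Real.sqrt (s * Real.log (Real.log s) / Real.log s) := by
  have h1 := loglog_tendsto.eventually_ge_atTop (2000 * (B : ℝ) + 1)
  have h2 := (rpow_tendsto (e := 1 / 8) (by norm_num)).eventually_ge_atTop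
    (8000 * (B : ℝ) * Q + 1)
  have h3 := Filter.eventually_ge_atTop (16 : ℕ)
  obtain ⟨s₁, hs₁⟩ := Filter.eventually_atTop.1 (h1.and (h2.and h3))
  refine ⟨s₁, fun s hs => ?_⟩
  obtain ⟨h1, h2, h3⟩ := hs₁ s hs
  have hBr : (1 : ℝ) ≤ B := by exact_mod_cast hB
  have hQr : (0 : ℝ) ≤ Q := Nat.cast_nonneg _
  refine ⟨by linarith, ?_⟩
  have hsr : (16 : ℝ) ≤ s := by exact_mod_cast h3
  have hs0 : (0 : ℝ) < s := by linarith
  have hlog : Real.log s ≤ 4 * (s : ℝ) ^ (1 / 4 : ℝ) := by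
    have := Real.log_le_rpow_div hs0.le (by norm_num : (0 : ℝ) < 1 / 4)
    linarith
  have hlogpos : 0 < Real.log s := Real.log_pos (by linarith)
  have hq : 1 ≤ (s : ℝ) ^ (1 / 4 : ℝ) := Real.one_le_rpow (by linarith) (by norm_num)
  -- the square root
  have hsqrt : (s : ℝ) ^ (3 / 8 : ℝ) / 2 ≤
      Real.sqrt (s * Real.log (Real.log s) / Real.log s) := by
    apply Real.le_sqrt_of_sq_le
    rw [div_pow, ← Real.rpow_natCast ((s : ℝ) ^ (3 / 8 : ℝ)) 2, ← Real.rpow_mul hs0.le,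
      le_div_iff₀ hlogpos]
    have e1 : (3 / 8 : ℝ) * ((2 : ℕ) : ℝ) = 3 / 4 := by norm_num
    rw [e1]
    have e2 : (s : ℝ) ^ (3 / 4 : ℝ) * (s : ℝ) ^ (1 / 4 : ℝ) = s := by
      rw [← Real.rpow_add hs0]
      norm_num
    have h0 : 0 ≤ (s : ℝ) ^ (3 / 4 : ℝ) := by positivity
    calc (s : ℝ) ^ (3 / 4 : ℝ) / 2 ^ 2 * Real.log s
        ≤ (s : ℝ) ^ (3 / 4 : ℝ) / 2 ^ 2 * (4 * (s : ℝ) ^ (1 / 4 : ℝ)) := by gcongr
      _ = ((s : ℝ) ^ (3 / 4 : ℝ) * (s : ℝ) ^ (1 / 4 : ℝ)) * 1 := by ring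
      _ = (s : ℝ) * 1 := by rw [e2]
      _ ≤ (s : ℝ) * Real.log (Real.log s) := by
          apply mul_le_mul_of_nonneg_left _ hs0.le
          linarith
  have hblk : (blk s : ℝ) ≤ 2 * (s : ℝ) ^ (1 / 4 : ℝ) := by
    unfold blk
    have := Nat.ceil_lt_add_one (R := ℝ) (a := (s : ℝ) ^ (1 / 4 : ℝ)) (by positivity)
    linarith
  have e3 : (s : ℝ) ^ (3 / 8 : ℝ) = (s : ℝ) ^ (1 / 8 : ℝ) * (s : ℝ) ^ (1 / 4 : ℝ) := by
    rw [← Real.rpow_add hs0]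
    norm_num
  push_cast
  have hBpos : (0 : ℝ) < B := by linarith
  rw [div_div, div_mul_eq_mul_div, le_div_iff₀ (by positivity), one_mul]
  calc (Q : ℝ) * blk s * (2000 * B) ≤ Q * (2 * (s : ℝ) ^ (1 / 4 : ℝ)) * (2000 * B) := by gcongr
    _ = (8000 * B * Q) * (s : ℝ) ^ (1 / 4 : ℝ) / 2 := by ring
    _ ≤ (s : ℝ) ^ (1 / 8 : ℝ) * (s : ℝ) ^ (1 / 4 : ℝ) / 2 := by
        have : 8000 * (B : ℝ) * Q ≤ (s : ℝ) ^ (1 / 8 : ℝ) := by linarith
        gcongr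
    _ = (s : ℝ) ^ (3 / 8 : ℝ) / 2 := by rw [e3]
    _ ≤ _ := hsqrt

open Classical in
/-- From real values outside subspaces to `Rich`. -/
theorem rich_of_real (z : ℕ → ℝ) (U : Finset ℕ) (B P : ℕ)
    (h : ∀ V : Submodule ℚ ℝ, FiniteDimensional ℚ V → finrank ℚ V ≤ B →
      P ≤ (U.filter (fun i => z i ∉ V)).card) : Rich (fun i => ((z i : ℝ) : ℂ)) U B P := by
  intro V hV hVB
  let r : ℝ →ₗ[ℚ] ℂ := (Algebra.linearMap ℝ ℂ).restrictScalars ℚ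
  have hr : ∀ x : ℝ, r x = (x : ℂ) := fun x => rfl
  let g : V.comap r →ₗ[ℚ] V := (r.restrict (p := V.comap r) (q := V) (fun x hx => hx))
  have hg : Function.Injective g := by
    intro x y hxy
    have h1 := congrArg Subtype.val hxy
    have h2 : r (x : ℝ) = r (y : ℝ) := h1
    rw [hr, hr] at h2
    exact Subtype.ext (Complex.ofReal_injective h2)
  have hfin : FiniteDimensional ℚ (V.comap r) := Module.Finite.of_injective g hg
  have hrk : finrank ℚ (V.comap r) ≤ finrank ℚ V := LinearMap.finrank_le_finrank_of_injective hg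
  have h1 := h (V.comap r) hfin (by omega)
  refine h1.trans (le_of_eq ?_)
  congr 1

theorem rich_zeta (B Q : ℕ) : ∃ s₁ : ℕ, ∀ s ≥ s₁,
    Rich (fun i => ((∑' n : ℕ, 1 / ((n : ℝ) + 1) ^ i : ℝ) : ℂ)) (odds s) B (Q * blk s) := by
  classical
  obtain ⟨s₀, hs₀⟩ := Pool.Agent.TH818.SA.t_sub
  obtain ⟨s₁, hs₁⟩ := size_cmp (B + 1) Q (Nat.succ_pos _)
  refine ⟨max s₀ s₁, fun s hs => ?_⟩
  obtain ⟨h1, h2⟩ := hs₁ s (le_trans (le_max_right _ _) hs)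
  apply rich_of_real
  intro V hV hVB
  have h3 := hs₀ s (le_trans (le_max_left _ _) hs) (B + 1) (by omega) h1 V hV (by omega)
  have h4 : Set.ncard {i : ℕ | 3 ≤ i ∧ i ≤ s ∧ Odd i ∧ (∑' n : ℕ, 1 / ((n : ℝ) + 1) ^ i) ∉ V} =
      ((odds s).filter (fun i => (∑' n : ℕ, 1 / ((n : ℝ) + 1) ^ i) ∉ V)).card := by
    rw [← Set.ncard_coe_finset]
    congr 1
    ext i
    simp only [Set.mem_ofPred_eq, Finset.coe_filter, mem_odds]
    tauto
  rw [h4] at h3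
  exact_mod_cast h2.trans h3

theorem blk_pow (ε M : ℝ) (hε : 0 < ε) : ∃ s₁ : ℕ, ∀ s ≥ s₁, 0 < blk s ∧
    M * (blk s : ℝ) ^ (-ε) ≤ (s : ℝ) ^ (-(ε / 8)) := by
  have h1 := (rpow_tendsto (e := ε / 8) (by positivity)).eventually_ge_atTop M
  obtain ⟨s₁, hs₁⟩ := Filter.eventually_atTop.1 (h1.and (Filter.eventually_ge_atTop (1 : ℕ)))
  refine ⟨s₁, fun s hs => ?_⟩
  obtain ⟨h1, h2⟩ := hs₁ s hs
  have hs0 : (0 : ℝ) < s := by exact_mod_cast h2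
  have h3 : 0 < (s : ℝ) ^ (1 / 4 : ℝ) := Real.rpow_pos_of_pos hs0 _
  have h4 : (s : ℝ) ^ (1 / 4 : ℝ) ≤ blk s := Nat.le_ceil _
  have h5 : 0 < blk s := by
    unfold blk
    exact Nat.ceil_pos.2 h3
  refine ⟨h5, ?_⟩
  have h6 : (blk s : ℝ) ^ (-ε) ≤ (s : ℝ) ^ (-(ε / 4)) := by
    calc (blk s : ℝ) ^ (-ε) ≤ ((s : ℝ) ^ (1 / 4 : ℝ)) ^ (-ε) :=
          Real.rpow_le_rpow_of_nonpos h3 h4 (by linarith)
      _ = (s : ℝ) ^ (-(ε / 4)) := by
          rw [← Real.rpow_mul hs0.le]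
          congr 1
          ring
  have h7 : 0 ≤ (blk s : ℝ) ^ (-ε) := Real.rpow_nonneg (Nat.cast_nonneg _) _
  calc M * (blk s : ℝ) ^ (-ε) ≤ (s : ℝ) ^ (ε / 8) * (blk s : ℝ) ^ (-ε) :=
        mul_le_mul_of_nonneg_right h1 h7
    _ ≤ (s : ℝ) ^ (ε / 8) * (s : ℝ) ^ (-(ε / 4)) :=
        mul_le_mul_of_nonneg_left h6 (Real.rpow_nonneg hs0.le _)
    _ = (s : ℝ) ^ (-(ε / 8)) := by
        rw [← Real.rpow_add hs0]
        congr 1
        ring

theorem zeta_eq (i : ℕ) (hi : 3 ≤ i) :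
    riemannZeta i = ((∑' n : ℕ, 1 / ((n : ℝ) + 1) ^ i : ℝ) : ℂ) := by
  rw [zeta_nat_eq_tsum_of_gt_one (by omega)]
  push_cast
  have h0 : Summable (fun n : ℕ => 1 / (n : ℂ) ^ i) := by
    have := (Complex.summable_one_div_nat_cpow (p := (i : ℂ))).2 (by
      rw [Complex.natCast_re]
      exact_mod_cast (by omega : 1 < i))
    simpa using this
  rw [h0.tsum_eq_zero_add]
  have h1 : (1 : ℂ) / ((0 : ℕ) : ℂ) ^ i = 0 := by
    rw [Nat.cast_zero, zero_pow (by omega), div_zero]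
  rw [h1, zero_add]
  refine tsum_congr fun n => ?_
  push_cast
  rfl

open Classical in
/-- **Random subset sums of odd zeta values.** -/
theorem zeta_subsets (k D N : ℕ) : ∃ c : ℝ, 0 < c ∧ ∃ s₀ : ℕ, ∀ s ≥ s₀,
    ∀ W : Submodule ℚ ℂ, Module.Finite ℚ W → finrank ℚ W ≤ N → ∀ y : Fin k → ℂ,
    (((Fintype.piFinset fun _ : Fin k => (odds s).powerset).filter
      (fun S => ∃ p : MvPolynomial (Fin k) ℂ, p ≠ 0 ∧ (∀ m, p.coeff m ∈ W) ∧
        (∀ j, p.degreeOf j ≤ D) ∧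
        MvPolynomial.eval (fun j => y j + ∑ i ∈ S j, riemannZeta ((i : ℕ) : ℂ)) p = 0)).card : ℝ) ≤
      (s : ℝ) ^ (-c) * 2 ^ (k * (odds s).card) := by
  classical
  obtain ⟨B, Q, M, ε, hM, hε, h⟩ := sub_tuples D k N
  obtain ⟨s₁, hs₁⟩ := rich_zeta B Q
  obtain ⟨s₂, hs₂⟩ := blk_pow ε M hε
  refine ⟨ε / 8, by positivity, max s₁ s₂, fun s hs W hW hWN y => ?_⟩
  have hR := hs₁ s (le_trans (le_max_left _ _) hs)
  obtain ⟨hb, hbM⟩ := hs₂ s (le_trans (le_max_right _ _) hs)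
  have h1 := h ℕ (odds s) (fun i => ((∑' n : ℕ, 1 / ((n : ℝ) + 1) ^ i : ℝ) : ℂ)) (blk s) hb hR
    W hW hWN y
  have hc : (((odds s).powerset.card : ℕ) : ℝ) ^ k = 2 ^ (k * (odds s).card) := by
    rw [Finset.card_powerset]
    push_cast
    rw [← pow_mul, mul_comm]
  rw [hc] at h1
  refine le_trans (Nat.cast_le.2 (Finset.card_le_card ?_))
    (h1.trans (mul_le_mul_of_nonneg_right hbM (by positivity)))
  intro S hS
  rw [Finset.mem_filter] at hS ⊢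
  refine ⟨hS.1, fun hind => ?_⟩
  obtain ⟨p, hp0, hpW, hpD, hpe⟩ := hS.2
  apply hp0
  refine poly_of_indepTW W _ hind p hpW hpD ?_
  have hz : (fun j => y j + ∑ i ∈ S j, riemannZeta ((i : ℕ) : ℂ)) = fun j => y j +
      ∑ i ∈ S j, ((∑' n : ℕ, 1 / ((n : ℝ) + 1) ^ i : ℝ) : ℂ) := by
    funext j
    congr 1
    refine Finset.sum_congr rfl fun i hi => ?_
    have hj := Fintype.mem_piFinset.1 hS.1 j
    have hi' := mem_odds.1 (Finset.mem_powerset.1 hj hi)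
    exact zeta_eq i hi'.1
  rw [hz] at hpe
  exact hpe

end Pool.Agent.Y918.QC
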