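import Mathlib
import Pool.Agent.Y918.QC.Fam
import Pool.Agent.Y918.QC.Zeta

set_option autoImplicit false

/-!
# The general theorem on sums of real numbers outside of small rational spaces
-/

namespace Pool.Agent.Y918.QC

open Finset Module
open Pool.Agent.W245 (IndepOver IndepT famExt famExt_finite)

/-- The numbers `z j` satisfy a nonzero polynomial relation of degree at most `D` in every variable
with coefficients in `W`. -/
def Rel (W : Submodule ℚ ℂ) (D : ℕ) {k : ℕ} (z : Fin k → ℂ) : Prop :=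
  ∃ p : MvPolynomial (Fin k) ℂ, p ≠ 0 ∧ (∀ m, p.coeff m ∈ W) ∧ (∀ j, p.degreeOf j ≤ D) ∧
    MvPolynomial.eval z p = 0

theorem not_rel {W : Submodule ℚ ℂ} {D k : ℕ} {z : Fin k → ℂ}
    (h : IndepT W (fun j => pwr D (z j))) : ¬ Rel W D z := by
  rintro ⟨p, hp0, hpW, hpD, hpe⟩
  exact hp0 (poly_of_indepTW W _ h p hpW hpD hpe)

/-- The square root of `s log log s / log s`. -/
noncomputable def sz (s : ℕ) : ℝ := Real.sqrt (s * Real.log (Real.log s) / Real.log s)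

theorem sz_ge : ∃ s₁ : ℕ, ∀ s ≥ s₁, (s : ℝ) ^ (3 / 8 : ℝ) / 2 ≤ sz s := by
  have h1 := loglog_tendsto.eventually_ge_atTop 1
  obtain ⟨s₁, hs₁⟩ := Filter.eventually_atTop.1 (h1.and (Filter.eventually_ge_atTop (16 : ℕ)))
  refine ⟨s₁, fun s hs => ?_⟩
  obtain ⟨h1, h3⟩ := hs₁ s hs
  have hsr : (16 : ℝ) ≤ s := by exact_mod_cast h3
  have hs0 : (0 : ℝ) < s := by linarith
  have hlog : Real.log s ≤ 4 * (s : ℝ) ^ (1 / 4 : ℝ) := by
    have := Real.log_le_rpow_div hs0.le (by norm_num : (0 : ℝ) < 1 / 4)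
    linarith
  have hlogpos : 0 < Real.log s := Real.log_pos (by linarith)
  apply Real.le_sqrt_of_sq_le
  rw [div_pow, ← Real.rpow_natCast ((s : ℝ) ^ (3 / 8 : ℝ)) 2, ← Real.rpow_mul hs0.le,
    le_div_iff₀ hlogpos]
  have e1 : (3 / 8 : ℝ) * ((2 : ℕ) : ℝ) = 3 / 4 := by norm_num
  rw [e1]
  have e2 : (s : ℝ) ^ (3 / 4 : ℝ) * (s : ℝ) ^ (1 / 4 : ℝ) = s := by
    rw [← Real.rpow_add hs0]
    norm_num
  have h0 : 0 ≤ (s : ℝ) ^ (3 / 4 : ℝ) := by positivity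
  calc (s : ℝ) ^ (3 / 4 : ℝ) / 2 ^ 2 * Real.log s
      ≤ (s : ℝ) ^ (3 / 4 : ℝ) / 2 ^ 2 * (4 * (s : ℝ) ^ (1 / 4 : ℝ)) := by gcongr
    _ = ((s : ℝ) ^ (3 / 4 : ℝ) * (s : ℝ) ^ (1 / 4 : ℝ)) * 1 := by ring
    _ = (s : ℝ) * 1 := by rw [e2]
    _ ≤ (s : ℝ) * Real.log (Real.log s) := by
        apply mul_le_mul_of_nonneg_left _ hs0.le
        linarith

theorem sz_tendsto : Filter.Tendsto sz Filter.atTop Filter.atTop := by
  obtain ⟨s₁, hs₁⟩ := sz_ge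
  have h1 := (rpow_tendsto (e := 3 / 8) (by norm_num)).atTop_div_const (by norm_num : (0 : ℝ) < 2)
  refine Filter.tendsto_atTop_mono' Filter.atTop ?_ h1
  filter_upwards [Filter.eventually_ge_atTop s₁] with s hs
  exact hs₁ s hs

/-- The blocks are small. -/
theorem blk_cmp (Q : ℕ) (κ : ℝ) (hκ : 0 < κ) : ∃ s₁ : ℕ, ∀ s ≥ s₁,
    ((Q * blk s : ℕ) : ℝ) ≤ κ * sz s := by
  obtain ⟨s₁, hs₁⟩ := sz_ge
  have h2 := (rpow_tendsto (e := 1 / 8) (by norm_num)).eventually_ge_atTop (4 * Q / κ)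
  obtain ⟨s₂, hs₂⟩ := Filter.eventually_atTop.1 (h2.and (Filter.eventually_ge_atTop (1 : ℕ)))
  refine ⟨max s₁ s₂, fun s hs => ?_⟩
  have h1 := hs₁ s (le_trans (le_max_left _ _) hs)
  obtain ⟨h2, h3⟩ := hs₂ s (le_trans (le_max_right _ _) hs)
  have hs0 : (0 : ℝ) < s := by exact_mod_cast h3
  have hs1 : (1 : ℝ) ≤ s := by exact_mod_cast h3
  have hq : 1 ≤ (s : ℝ) ^ (1 / 4 : ℝ) := Real.one_le_rpow hs1 (by norm_num)
  have hblk : (blk s : ℝ) ≤ 2 * (s : ℝ) ^ (1 / 4 : ℝ) := by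
    unfold blk
    have := Nat.ceil_lt_add_one (R := ℝ) (a := (s : ℝ) ^ (1 / 4 : ℝ)) (by positivity)
    linarith
  have e3 : (s : ℝ) ^ (3 / 8 : ℝ) = (s : ℝ) ^ (1 / 8 : ℝ) * (s : ℝ) ^ (1 / 4 : ℝ) := by
    rw [← Real.rpow_add hs0]
    norm_num
  rw [div_le_iff₀ hκ] at h2
  push_cast
  have hQ : (0 : ℝ) ≤ Q := Nat.cast_nonneg _
  calc (Q : ℝ) * blk s ≤ Q * (2 * (s : ℝ) ^ (1 / 4 : ℝ)) := by gcongr
    _ = (4 * Q) * (s : ℝ) ^ (1 / 4 : ℝ) / 2 := by ring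
    _ ≤ ((s : ℝ) ^ (1 / 8 : ℝ) * κ) * (s : ℝ) ^ (1 / 4 : ℝ) / 2 := by gcongr
    _ = κ * ((s : ℝ) ^ (3 / 8 : ℝ) / 2) := by rw [e3]; ring
    _ ≤ _ := by gcongr

open Classical in
/-- Many of the numbers `z i`, `i ∈ U`, are outside of every rational space of small dimension. -/
def Out (κ : ℝ) (s : ℕ) (U : Finset ℕ) (z : ℕ → ℝ) : Prop :=
  ∀ B : ℕ, 1 ≤ B → (B : ℝ) ≤ (1 / 2000) * Real.log (Real.log s) →
    ∀ V : Submodule ℚ ℝ, FiniteDimensional ℚ V → finrank ℚ V ≤ B →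
      κ / B * sz s ≤ ((U.filter (fun i => z i ∉ V)).card : ℝ)

theorem rich_of_out {κ : ℝ} {s : ℕ} {U : Finset ℕ} {z : ℕ → ℝ} (h : Out κ s U z) {B P : ℕ}
    (hB : ((B + 1 : ℕ) : ℝ) ≤ (1 / 2000) * Real.log (Real.log s))
    (hP : (P : ℝ) ≤ κ / (B + 1 : ℕ) * sz s) : Rich (fun i => ((z i : ℝ) : ℂ)) U B P := by
  apply rich_of_real
  intro V hV hVB
  have h1 := h (B + 1) (by omega) hB V hV (by omega)
  exact_mod_cast hP.trans h1

open Classical in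
/-- **The general theorem.** -/
theorem master (k D N : ℕ) (κ : ℝ) (hκ : 0 < κ) : ∃ c : ℝ, 0 < c ∧ ∃ m s₀ : ℕ, ∀ s ≥ s₀,
    ∀ (U : Fin k → Finset ℕ) (z : Fin k → ℕ → ℝ), (∀ j, Out κ s (U j) (z j)) →
    ∀ W : Submodule ℚ ℂ, Module.Finite ℚ W → finrank ℚ W ≤ N → ∀ y : Fin k → ℂ,
    (((Fintype.piFinset fun j : Fin k => (U j).powerset).filter
      (fun S => Rel W D (fun j => y j + ∑ i ∈ S j, ((z j i : ℝ) : ℂ)))).card : ℝ) ≤
      (s : ℝ) ^ (-c) * ∏ j, ((U j).powerset.card : ℝ) ∧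
    (c * sz s) ^ k ≤ (((Fintype.piFinset fun j : Fin k =>
      (U j).powerset.filter (fun S => S.card ≤ m)).filter
      (fun S => ¬ Rel W D (fun j => y j + ∑ i ∈ S j, ((z j i : ℝ) : ℂ)))).card : ℝ) := by
  classical
  obtain ⟨B, Q, M, ε, hM, hε, h⟩ := fam_tuples D k N
  obtain ⟨B', m, hm, h'⟩ := short_tuples D k N
  obtain ⟨s₁, hs₁⟩ := blk_pow ε M hε
  obtain ⟨s₂, hs₂⟩ := blk_cmp Q (κ / (B + 1 : ℕ)) (by positivity)
  have hmr : (0 : ℝ) < m := by exact_mod_cast hm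
  obtain ⟨τ, hτ⟩ : ∃ τ : ℝ, τ = κ / (B' + 1 : ℕ) / m := ⟨_, rfl⟩
  have hτ0 : 0 < τ := by rw [hτ]; positivity
  have h3 := loglog_tendsto.eventually_ge_atTop (2000 * ((B + 1 : ℕ) : ℝ))
  have h4 := loglog_tendsto.eventually_ge_atTop (2000 * ((B' + 1 : ℕ) : ℝ))
  have h5 := sz_tendsto.eventually_ge_atTop (2 / τ)
  obtain ⟨s₃, hs₃⟩ := Filter.eventually_atTop.1
    (h3.and (h4.and (h5.and (Filter.eventually_ge_atTop (1 : ℕ)))))
  refine ⟨min (ε / 8) (τ / 2), lt_min (by positivity) (by positivity), m, max s₁ (max s₂ s₃), ?_⟩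
  intro s hs U z hU W hW hWN y
  obtain ⟨hb, hbM⟩ := hs₁ s (le_trans (le_max_left _ _) hs)
  have h2 := hs₂ s (le_trans ((le_max_left _ _).trans (le_max_right _ _)) hs)
  obtain ⟨h3, h4, h5, h6⟩ := hs₃ s (le_trans ((le_max_right _ _).trans (le_max_right _ _)) hs)
  have hs1 : (1 : ℝ) ≤ s := by exact_mod_cast h6
  constructor
  · have h7 := h ℕ U (fun j i => ((z j i : ℝ) : ℂ)) (blk s) hb (fun j =>
      rich_of_out (hU j) (by linarith) h2) W hW hWN y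
    have h8 : (s : ℝ) ^ (-(ε / 8)) ≤ (s : ℝ) ^ (-(min (ε / 8) (τ / 2))) :=
      Real.rpow_le_rpow_of_exponent_le hs1 (neg_le_neg (min_le_left _ _))
    have hprod : 0 ≤ ∏ j, ((U j).powerset.card : ℝ) :=
      Finset.prod_nonneg fun j _ => Nat.cast_nonneg _
    refine le_trans (Nat.cast_le.2 (Finset.card_le_card ?_))
      (h7.trans (mul_le_mul_of_nonneg_right (hbM.trans h8) hprod))
    intro S hS
    rw [Finset.mem_filter] at hS ⊢
    exact ⟨hS.1, fun hind => not_rel hind hS.2⟩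
  · obtain ⟨n, hn⟩ : ∃ n : ℕ, n = ⌊τ * sz s⌋₊ := ⟨_, rfl⟩
    have hszpos : 0 < sz s := lt_of_lt_of_le (by positivity) h5
    have h7 : 2 ≤ τ * sz s := by
      rw [div_le_iff₀ hτ0] at h5
      linarith
    have h8 : (n : ℝ) ≤ τ * sz s := by
      rw [hn]
      exact Nat.floor_le (by linarith)
    have h9 : τ * sz s / 2 ≤ n := by
      have := Nat.lt_floor_add_one (τ * sz s)
      rw [← hn] at this
      linarith
    have h10 := h' ℕ U (fun j i => ((z j i : ℝ) : ℂ)) n (fun j =>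
      rich_of_out (hU j) (by linarith) (by
        push_cast
        calc (m : ℝ) * n ≤ m * (τ * sz s) := by gcongr
          _ = κ / (B' + 1 : ℕ) * sz s := by
              rw [hτ]
              field_simp
          _ = _ := by push_cast; rfl)) W hW hWN y
    calc (min (ε / 8) (τ / 2) * sz s) ^ k ≤ (n : ℝ) ^ k := by
          apply pow_le_pow_left₀
          · exact mul_nonneg (le_min (by positivity) (by positivity)) hszpos.le
          · calc min (ε / 8) (τ / 2) * sz s ≤ (τ / 2) * sz s :=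
                  mul_le_mul_of_nonneg_right (min_le_right _ _) hszpos.le
              _ = τ * sz s / 2 := by ring
              _ ≤ n := h9
      _ = ((n ^ k : ℕ) : ℝ) := by push_cast; rfl
      _ ≤ _ := Nat.cast_le.2 (h10.trans (Finset.card_le_card (by
          intro S hS
          rw [Finset.mem_filter] at hS ⊢
          exact ⟨hS.1, not_rel hS.2⟩)))

end Pool.Agent.Y918.QC
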