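import Mathlib
import Pool.Agent.Y918.QC.Fam

set_option autoImplicit false

/-!
# Short sums with an explicit number of terms
-/

namespace Pool.Agent.Y918.QC

open Finset Module
open Pool.Agent.W245 (IndepOver IndepT famExt famExt_finite)
open Pool.Agent.H301R2.SSE (QB mem_QB)

/-- **The grid theorem** with the explicit number of groups. -/
theorem cubeQ' (F κ C : Type*) [Field F] [CharZero F] [Field κ] [Algebra F κ]
    [Algebra.IsAlgebraic F κ] [IsAlgClosed κ] [CharZero κ] [Field C] [Algebra κ C] [Algebra F C]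
    [IsScalarTower F κ C] (D N : ℕ) : ∃ B : ℕ, ∀ W : Submodule F C, Module.Finite F W →
      finrank F W ≤ N → GridP D (N * (D + 1) * D) B W := by
  classical
  induction N with
  | zero =>
    refine ⟨0, fun W hW hN => ?_⟩
    intro z₀ w _
    refine ⟨fun _ => none, ?_⟩
    have h1 : W = ⊥ := Submodule.finrank_eq_zero.1 (Nat.le_zero.1 hN)
    intro c hc _ e
    have h2 := hc e
    rw [h1] at h2
    exact (Submodule.mem_bot F).1 h2
  | succ N ih =>
    obtain ⟨B, hGB⟩ := ih
    obtain ⟨m, hm⟩ : ∃ m, m = Fintype.card (Fin (N + 1) × Fin (D + 1)) := ⟨_, rfl⟩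
    have hmpos : 0 < m := by
      rw [hm]
      exact Fintype.card_pos
    have hm' : m = (N + 1) * (D + 1) := by
      rw [hm, Fintype.card_prod, Fintype.card_fin, Fintype.card_fin]
    obtain ⟨p, hp⟩ := exists_size m (m * D) hmpos
    refine ⟨max B (m * p + 1), fun W hW hN => ?_⟩
    rcases Nat.lt_or_ge (finrank F W) (N + 1) with h | h
    · refine (hGB W hW (by omega)).mono ?_ (le_max_left _ _)
      exact Nat.mul_le_mul_right _ (Nat.mul_le_mul_right _ (Nat.le_succ N))
    · have hN' : finrank F W = N + 1 := le_antisymm hN h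
      have h1 : GridP D (m * D) (m * p + 1) W := by
        let b := Module.finBasisOfFinrankEq F W hN'
        have hli : LinearIndependent F (fun i => ((b i : W) : C)) :=
          b.linearIndependent.map' W.subtype (Submodule.ker_subtype W)
        have hspan : Submodule.span F (Set.range fun i => ((b i : W) : C)) = W := by
          have h2 : (Set.range fun i => ((b i : W) : C)) = W.subtype '' Set.range b := by
            rw [← Set.range_comp]
            rfl
          rw [h2, Submodule.span_image, b.span_eq, Submodule.map_top, Submodule.range_subtype]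
        intro z₀ w hw
        have h3 := cube_exact F κ C (ι := Fin (N + 1)) D p m hm hp (I := Fin (m * p + 1))
          (by rw [Fintype.card_fin]) (fun i => ((b i : W) : C)) hli z₀ w hw
        rw [hspan] at h3
        exact h3
      refine h1.mono ?_ (le_max_right _ _)
      rw [hm']

/-- Many disjoint short subsets with a good sum. -/
theorem short_one' (D N : ℕ) : ∃ (B Q : ℕ), 0 < Q ∧
    ∀ (X : Type) [DecidableEq X] (U : Finset X) (a : X → ℂ) (n : ℕ),
    Rich a U B (Q * n) → ∀ W : Submodule ℚ ℂ, Module.Finite ℚ W → finrank ℚ W ≤ N → ∀ y : ℂ,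
    ∃ F : Fin n → Finset X, Function.Injective F ∧ (∀ r, F r ⊆ U) ∧
      (∀ r, (F r).card ≤ N * (D + 1) * D + 1) ∧
      ∀ r, IndepOver W (pwr D (y + ∑ x ∈ F r, a x)) := by
  classical
  have halg : Algebra.IsAlgebraic ℚ QB := algebraicClosure.isAlgebraic ℚ ℂ
  have hacl : IsAlgClosed QB := (algebraicClosure.isAlgClosure ℚ ℂ).isAlgClosed
  obtain ⟨B₀, hGB⟩ := cubeQ' ℚ QB ℂ D N
  obtain ⟨G, hG⟩ : ∃ G, G = N * (D + 1) * D := ⟨_, rfl⟩
  rw [← hG] at hGB ⊢
  have hBpos : 0 < B₀ + 1 := Nat.succ_pos _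
  refine ⟨B₀ + 1, (G + 1) * (B₀ + 1), Nat.mul_pos (Nat.succ_pos _) hBpos, ?_⟩
  intro X _ U a n hR W hW hWN y
  have hgrid : GridP D G (B₀ + 1) W := (hGB W hW hWN).mono le_rfl (Nat.le_succ _)
  obtain ⟨T, hTU, hTd, hTr⟩ := Rich.exists_groups hBpos 1 (n * (G + 1)) (U := U) (a := a) (by
    have : n * (G + 1) * (1 * (B₀ + 1)) = (G + 1) * (B₀ + 1) * n := by ring
    rw [this]
    exact hR)
  let e : Fin n × Fin (G + 1) ≃ Fin (n * (G + 1)) := finProdFinEquiv
  have h1 : ∀ r : Fin n, ∃ S : Finset X, S.Nonempty ∧ S ⊆ univ.biUnion (fun g => T (e (r, g))) ∧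
      S.card ≤ G + 1 ∧ IndepOver W (pwr D (y + ∑ x ∈ S, a x)) := by
    intro r
    apply exists_short hBpos hgrid a (fun g => T (e (r, g)))
    · intro g g' hgg
      apply hTd
      intro h
      apply hgg
      have h2 := e.injective h
      exact (Prod.mk.injEq _ _ _ _ ▸ h2).2
    · intro g
      exact hTr _
  choose F hF1 hF2 hF3 hF4 using h1
  have hdis : ∀ r r', r ≠ r' → Disjoint (F r) (F r') := by
    intro r r' hrr
    rw [Finset.disjoint_left]
    intro x hx hx'
    obtain ⟨g, _, hg⟩ := Finset.mem_biUnion.1 (hF2 r hx)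
    obtain ⟨g', _, hg'⟩ := Finset.mem_biUnion.1 (hF2 r' hx')
    refine Finset.disjoint_left.1 (hTd (e (r, g)) (e (r', g')) ?_) hg hg'
    intro h
    have h2 := e.injective h
    exact hrr (Prod.mk.injEq _ _ _ _ ▸ h2).1
  refine ⟨F, ?_, ?_, ?_, hF4⟩
  · intro r r' h
    by_contra hne
    obtain ⟨x, hx⟩ := hF1 r
    exact Finset.disjoint_left.1 (hdis r r' hne) hx (h ▸ hx)
  · intro r x hx
    obtain ⟨g, _, hg⟩ := Finset.mem_biUnion.1 (hF2 r hx)
    exact hTU _ hg
  · exact hF3

open Classical in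
/-- Many tuples of short sums without relations. -/
theorem short_tuples' (D k : ℕ) : ∀ N : ℕ, ∃ (B Q : ℕ), 0 < Q ∧
    ∀ (X : Type) [DecidableEq X] (U : Fin k → Finset X) (a : Fin k → X → ℂ) (n : ℕ),
    (∀ j, Rich (a j) (U j) B (Q * n)) → ∀ W : Submodule ℚ ℂ, Module.Finite ℚ W →
    finrank ℚ W ≤ N → ∀ y : Fin k → ℂ,
    n ^ k ≤ ((Fintype.piFinset fun j : Fin k => (U j).powerset.filter
        (fun S => S.card ≤ N * D * (D + 1) ^ k + 1)).filter
      (fun S => IndepT W (fun j => pwr D (y j + ∑ x ∈ S j, a j x)))).card := by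
  classical
  induction k with
  | zero =>
    intro N
    refine ⟨0, 1, Nat.one_pos, ?_⟩
    intro X _ U a n _ W _ _ y
    rw [pow_zero]
    apply Nat.succ_le_of_lt
    rw [Finset.card_pos]
    refine ⟨Fin.elim0, ?_⟩
    rw [Finset.mem_filter, Fintype.mem_piFinset]
    exact ⟨fun j => j.elim0, IndepT.zero _ _⟩
  | succ k ih =>
    intro N
    obtain ⟨B₁, m₁, hm₁, h₁⟩ := short_one' D N
    obtain ⟨B₂, m₂, hm₂, h₂⟩ := ih (N * (D + 1))
    refine ⟨max B₁ B₂, max m₁ m₂, lt_of_lt_of_le hm₁ (le_max_left _ _), ?_⟩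
    intro X _ U a n hR W hW hWN y
    obtain ⟨m, hm⟩ : ∃ m, m = N * D * (D + 1) ^ (k + 1) + 1 := ⟨_, rfl⟩
    have hm1 : N * (D + 1) * D + 1 ≤ m := by
      rw [hm]
      have h1 : N * (D + 1) * D = N * D * (D + 1) ^ 1 := by ring
      rw [h1]
      have h2 : (D + 1) ^ 1 ≤ (D + 1) ^ (k + 1) := Nat.pow_le_pow_right (Nat.succ_pos _) (by omega)
      have h3 := Nat.mul_le_mul_left (N * D) h2
      omega
    have hm2 : N * (D + 1) * D * (D + 1) ^ k + 1 ≤ m := by
      rw [hm]
      have h1 : N * (D + 1) * D * (D + 1) ^ k = N * D * (D + 1) ^ (k + 1) := by ring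
      rw [h1]
    have hR₁ : Rich (a 0) (U 0) B₁ (m₁ * n) :=
      (hR 0).mono' (le_max_left _ _) (Nat.mul_le_mul_right _ (le_max_left _ _))
    have hR₂ : ∀ j : Fin k, Rich (a j.succ) (U j.succ) B₂ (m₂ * n) := fun j =>
      (hR j.succ).mono' (le_max_right _ _) (Nat.mul_le_mul_right _ (le_max_right _ _))
    obtain ⟨F, hFinj, hFU, hFc, hFi⟩ := h₁ X (U 0) (a 0) n hR₁ W hW hWN (y 0)
    rw [← hm]
    set Y := (Fintype.piFinset fun j : Fin (k + 1) =>
      (U j).powerset.filter (fun S => S.card ≤ m)).filter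
      (fun S => IndepT W (fun j => pwr D (y j + ∑ x ∈ S j, a j x))) with hY
    -- the tails
    have htail : ∀ r : Fin n, n ^ k ≤ (Y.filter (fun S => S 0 = F r)).card := by
      intro r
      obtain ⟨hfin, hrk⟩ := famExt_finite W N hWN (pwr D (y 0 + ∑ x ∈ F r, a 0 x))
      rw [Fintype.card_fin] at hrk
      have h3 := h₂ X (fun j => U j.succ) (fun j => a j.succ) n hR₂ _ hfin hrk (Fin.tail y)
      refine h3.trans ?_
      refine Finset.card_le_card_of_injOn (fun S => (Fin.cons (F r) S : Fin (k + 1) → Finset X))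
        ?_ ?_
      · intro S hS
        rw [Finset.mem_coe, Finset.mem_filter, Fintype.mem_piFinset] at hS
        rw [Finset.mem_coe, Finset.mem_filter, hY, Finset.mem_filter, Fintype.mem_piFinset]
        refine ⟨⟨fun j => ?_, ?_⟩, rfl⟩
        · refine Fin.cases ?_ (fun j => ?_) j
          · rw [Finset.mem_filter, Finset.mem_powerset]
            exact ⟨hFU r, (hFc r).trans hm1⟩
          · rw [Finset.mem_filter]
            have h4 := Finset.mem_filter.1 (hS.1 j)
            exact ⟨h4.1, h4.2.trans hm2⟩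
        · have h8 := IndepT.cons (hFi r) hS.2
          have h9 : (fun j => pwr D (y j + ∑ x ∈ (Fin.cons (F r) S : Fin (k + 1) → Finset X) j,
              a j x)) =
              (Fin.cons (pwr D (y 0 + ∑ x ∈ F r, a 0 x))
                (fun j => pwr D (Fin.tail y j + ∑ x ∈ S j, a j.succ x)) :
                Fin (k + 1) → Fin (D + 1) → ℂ) := by
            funext j
            refine Fin.cases ?_ (fun j => ?_) j
            · rfl
            · rfl
          rw [h9]
          exact h8
      · intro S _ S' _ hSS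
        exact (Fin.cons_inj.1 hSS).2
    have h5 : (univ.biUnion fun r : Fin n => Y.filter (fun S => S 0 = F r)) ⊆ Y := by
      intro S hS
      obtain ⟨r, _, hr⟩ := Finset.mem_biUnion.1 hS
      exact (Finset.mem_filter.1 hr).1
    refine le_trans ?_ (Finset.card_le_card h5)
    rw [Finset.card_biUnion]
    · calc n ^ (k + 1) = ∑ _r : Fin n, n ^ k := by
            rw [Finset.sum_const, Finset.card_univ, Fintype.card_fin, smul_eq_mul, pow_succ,
              mul_comm]
        _ ≤ _ := Finset.sum_le_sum fun r _ => htail r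
    · intro r _ r' _ hrr
      rw [Function.onFun, Finset.disjoint_left]
      intro S hS hS'
      rw [Finset.mem_filter] at hS hS'
      exact hrr (hFinj (hS.2.symm.trans hS'.2))

end Pool.Agent.Y918.QC
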