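import Mathlib
import Pool.Agent.TH818.SA.Sub
import Pool.Agent.TH818.SA.MA2A
import Pool.Agent.Y918.QC.Master
import Pool.Agent.Y918.QC.Short

set_option autoImplicit false

/-!
# Applications: odd zeta values and periodic Dirichlet series at even integers
-/

namespace Pool.Agent.Y918.QC

open Finset Module
open Pool.Agent.W245 (IndepOver IndepT famExt famExt_finite)

theorem Out.mono {κ κ' : ℝ} {s : ℕ} {U : Finset ℕ} {z : ℕ → ℝ} (h : Out κ s U z) (hκ : κ' ≤ κ) :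
    Out κ' s U z := by
  intro B hB1 hB V hV hVB
  refine le_trans ?_ (h B hB1 hB V hV hVB)
  have hsz : 0 ≤ sz s := Real.sqrt_nonneg _
  have hBr : (0 : ℝ) < B := by exact_mod_cast hB1
  gcongr

/-- The odd zeta values. -/
noncomputable def zO (i : ℕ) : ℝ := ∑' n : ℕ, 1 / ((n : ℝ) + 1) ^ i

theorem out_zeta : ∃ s₀ : ℕ, ∀ s ≥ s₀, Out (1 / 2000) s (odds s) zO := by
  classical
  obtain ⟨s₀, hs₀⟩ := Pool.Agent.TH818.SA.t_sub
  refine ⟨s₀, fun s hs B hB1 hB V hV hVB => ?_⟩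
  have h3 := hs₀ s hs B hB1 hB V hV hVB
  have h4 : Set.ncard {i : ℕ | 3 ≤ i ∧ i ≤ s ∧ Odd i ∧ (∑' n : ℕ, 1 / ((n : ℝ) + 1) ^ i) ∉ V} =
      ((odds s).filter (fun i => zO i ∉ V)).card := by
    rw [← Set.ncard_coe_finset]
    congr 1
    ext i
    simp only [Set.mem_ofPred_eq, Finset.coe_filter, mem_odds, zO]
    tauto
  rw [h4] at h3
  exact h3

/-- The even integers from `2` to `s`. -/
def evens (s : ℕ) : Finset ℕ := (Finset.Icc 2 s).filter (fun i => Even i)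

theorem mem_evens {s i : ℕ} : i ∈ evens s ↔ 2 ≤ i ∧ i ≤ s ∧ Even i := by
  unfold evens
  rw [Finset.mem_filter, Finset.mem_Icc, and_assoc]

/-- The values of the Dirichlet series of a function. -/
noncomputable def zE (a : ℕ → ℤ) (i : ℕ) : ℝ := ∑' n : ℕ, (a (n + 1) : ℝ) / ((n : ℝ) + 1) ^ i

theorem out_even (f : ℕ) (hf : 1 ≤ f) : ∃ s₀ : ℕ, ∀ s ≥ s₀, ∀ a : ℕ → ℤ,
    (∀ u, a (u + f) = a u) → (∃ u, Nat.Coprime u f ∧ a u ≠ 0) →
    Out (1 / (4000 * f)) s (evens s) (zE a) := by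
  classical
  obtain ⟨s₀, hs₀⟩ := Pool.Agent.TH818.SA.t_suba f hf
  refine ⟨s₀, fun s hs a ha ha' B hB1 hB V hV hVB => ?_⟩
  have h3 := hs₀ s hs a ha ha' B hB1 hB V hV hVB
  have h4 : Set.ncard {i : ℕ | 2 ≤ i ∧ i ≤ s ∧ Even i ∧
        (∑' n : ℕ, (a (n + 1) : ℝ) / ((n : ℝ) + 1) ^ i) ∉ V} =
      ((evens s).filter (fun i => zE a i ∉ V)).card := by
    rw [← Set.ncard_coe_finset]
    congr 1
    ext i
    simp only [Set.mem_ofPred_eq, Finset.coe_filter, mem_evens, zE]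
    tauto
  rw [h4] at h3
  refine le_trans (le_of_eq ?_) h3
  unfold sz
  rw [div_div, div_div, mul_assoc]

open Classical in
/-- **Many short sums without relations.** -/
theorem master_short (k D N : ℕ) (κ : ℝ) (hκ : 0 < κ) : ∃ c : ℝ, 0 < c ∧ ∃ s₀ : ℕ, ∀ s ≥ s₀,
    ∀ (U : Fin k → Finset ℕ) (z : Fin k → ℕ → ℝ), (∀ j, Out κ s (U j) (z j)) →
    ∀ W : Submodule ℚ ℂ, Module.Finite ℚ W → finrank ℚ W ≤ N → ∀ y : Fin k → ℂ,
    (c * sz s) ^ k ≤ (((Fintype.piFinset fun j : Fin k =>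
      (U j).powerset.filter (fun S => S.card ≤ N * D * (D + 1) ^ k + 1)).filter
      (fun S => ¬ Rel W D (fun j => y j + ∑ i ∈ S j, ((z j i : ℝ) : ℂ)))).card : ℝ) := by
  classical
  obtain ⟨B', m, hm, h'⟩ := short_tuples' D k N
  have hmr : (0 : ℝ) < m := by exact_mod_cast hm
  obtain ⟨τ, hτ⟩ : ∃ τ : ℝ, τ = κ / (B' + 1 : ℕ) / m := ⟨_, rfl⟩
  have hτ0 : 0 < τ := by rw [hτ]; positivity
  have h4 := loglog_tendsto.eventually_ge_atTop (2000 * ((B' + 1 : ℕ) : ℝ))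
  have h5 := sz_tendsto.eventually_ge_atTop (2 / τ)
  obtain ⟨s₃, hs₃⟩ := Filter.eventually_atTop.1
    (h4.and (h5.and (Filter.eventually_ge_atTop (1 : ℕ))))
  refine ⟨τ / 2, by positivity, s₃, ?_⟩
  intro s hs U z hU W hW hWN y
  obtain ⟨h4, h5, h6⟩ := hs₃ s hs
  obtain ⟨n, hn⟩ : ∃ n : ℕ, n = ⌊τ * sz s⌋₊ := ⟨_, rfl⟩
  have hszpos : 0 < sz s := lt_of_lt_of_le (by positivity) h5
  have h7 : 2 ≤ τ * sz s := by
    rw [div_le_iff₀ hτ0] at h5
    linarith
  have h8 : (n : ℝ) ≤ τ * sz s := by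
    rw [hn]
    exact Nat.floor_le (by linarith)
  have h9 : τ * sz s / 2 ≤ n := by
    have := Nat.lt_floor_add_one (τ * sz s)
    rw [← hn] at this
    linarith
  have h10 := h' ℕ U (fun j i => ((z j i : ℝ) : ℂ)) n (fun j =>
    rich_of_out (hU j) (by linarith) (by
      push_cast
      calc (m : ℝ) * n ≤ m * (τ * sz s) := by gcongr
        _ = κ / (B' + 1 : ℕ) * sz s := by
            rw [hτ]
            field_simp
        _ = _ := by push_cast; rfl)) W hW hWN y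
  calc (τ / 2 * sz s) ^ k ≤ (n : ℝ) ^ k := by
        apply pow_le_pow_left₀
        · exact mul_nonneg (by positivity) hszpos.le
        · calc (τ / 2) * sz s = τ * sz s / 2 := by ring
            _ ≤ n := h9
    _ = ((n ^ k : ℕ) : ℝ) := by push_cast; rfl
    _ ≤ _ := Nat.cast_le.2 (h10.trans (Finset.card_le_card (by
        intro S hS
        rw [Finset.mem_filter] at hS ⊢
        exact ⟨hS.1, not_rel hS.2⟩)))

open Classical in
/-- **Short sums of odd zeta values.** -/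
theorem zeta_short (k D N : ℕ) : ∃ c : ℝ, 0 < c ∧ ∃ s₀ : ℕ, ∀ s ≥ s₀,
    ∀ W : Submodule ℚ ℂ, Module.Finite ℚ W → finrank ℚ W ≤ N → ∀ y : Fin k → ℂ,
    (c * Real.sqrt (s * Real.log (Real.log s) / Real.log s)) ^ k ≤
      (((Fintype.piFinset fun _ : Fin k =>
        (odds s).powerset.filter (fun S => S.card ≤ N * D * (D + 1) ^ k + 1)).filter
        (fun S => ¬ Rel W D (fun j => y j + ∑ i ∈ S j, riemannZeta ((i : ℕ) : ℂ)))).card : ℝ) := by
  classical
  obtain ⟨c, hc, s₁, hs₁⟩ := master_short k D N (1 / 2000) (by norm_num)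
  obtain ⟨s₂, hs₂⟩ := out_zeta
  refine ⟨c, hc, max s₁ s₂, fun s hs W hW hWN y => ?_⟩
  have h := hs₁ s (le_trans (le_max_left _ _) hs) (fun _ => odds s) (fun _ => zO)
    (fun _ => hs₂ s (le_trans (le_max_right _ _) hs)) W hW hWN y
  refine h.trans (Nat.cast_le.2 (Finset.card_le_card ?_))
  intro S hS
  rw [Finset.mem_filter] at hS ⊢
  refine ⟨hS.1, ?_⟩
  have hz : (fun j => y j + ∑ i ∈ S j, riemannZeta ((i : ℕ) : ℂ)) = fun j => y j +
      ∑ i ∈ S j, ((zO i : ℝ) : ℂ) := by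
    funext j
    congr 1
    refine Finset.sum_congr rfl fun i hi => ?_
    have hj := Fintype.mem_piFinset.1 hS.1 j
    have hi' := mem_odds.1 (Finset.mem_powerset.1 (Finset.mem_filter.1 hj).1 hi)
    exact zeta_eq i hi'.1
  rw [hz]
  exact hS.2

/-- The exponents of parity `o` from `2` to `s`. -/
def expo (o : Bool) (s : ℕ) : Finset ℕ := if o then odds s else evens s

/-- The complex value of a Dirichlet series. -/
noncomputable def dir (a : ℕ → ℤ) (i : ℕ) : ℂ := ∑' n : ℕ, (a (n + 1) : ℂ) / ((n : ℂ) + 1) ^ i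

theorem dir_eq (a : ℕ → ℤ) (i : ℕ) : dir a i = ((zE a i : ℝ) : ℂ) := by
  unfold dir zE
  rw [Complex.ofReal_tsum]
  refine tsum_congr fun n => ?_
  push_cast
  rfl

/-- Admissible series. -/
def Adm (f : ℕ) (o : Bool) (a : ℕ → ℤ) : Prop :=
  (o = true ∧ ∀ u, a u = 1) ∨
    (o = false ∧ (∀ u, a (u + f) = a u) ∧ ∃ u, Nat.Coprime u f ∧ a u ≠ 0)

theorem out_adm (f : ℕ) (hf : 1 ≤ f) : ∃ s₀ : ℕ, ∀ s ≥ s₀, ∀ (o : Bool) (a : ℕ → ℤ), Adm f o a →
    Out (1 / (4000 * f)) s (expo o s) (zE a) := by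
  obtain ⟨s₁, hs₁⟩ := out_zeta
  obtain ⟨s₂, hs₂⟩ := out_even f hf
  refine ⟨max s₁ s₂, fun s hs o a ha => ?_⟩
  rcases ha with ⟨ho, ha⟩ | ⟨ho, ha, ha'⟩
  · have h1 := hs₁ s (le_trans (le_max_left _ _) hs)
    have h2 : zE a = zO := by
      funext i
      unfold zE zO
      refine tsum_congr fun n => ?_
      rw [ha]
      push_cast
      rfl
    rw [ho, h2]
    have h3 : expo true s = odds s := rfl
    rw [h3]
    apply h1.mono
    have hfr : (1 : ℝ) ≤ f := by exact_mod_cast hf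
    apply one_div_le_one_div_of_le (by norm_num)
    linarith
  · rw [ho]
    have h3 : expo false s = evens s := rfl
    rw [h3]
    exact hs₂ s (le_trans (le_max_right _ _) hs) a ha ha'

open Classical in
/-- **Random subset sums of odd zeta values and of periodic series at even integers.** -/
theorem adm_subsets (f : ℕ) (hf : 1 ≤ f) (k D N : ℕ) : ∃ c : ℝ, 0 < c ∧ ∃ s₀ : ℕ, ∀ s ≥ s₀,
    ∀ (o : Fin k → Bool) (a : Fin k → ℕ → ℤ), (∀ j, Adm f (o j) (a j)) →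
    ∀ W : Submodule ℚ ℂ, Module.Finite ℚ W → finrank ℚ W ≤ N → ∀ y : Fin k → ℂ,
    (((Fintype.piFinset fun j : Fin k => (expo (o j) s).powerset).filter
      (fun S => Rel W D (fun j => y j + ∑ i ∈ S j, dir (a j) i))).card : ℝ) ≤
      (s : ℝ) ^ (-c) * ∏ j, (2 : ℝ) ^ (expo (o j) s).card := by
  classical
  have hfr : (0 : ℝ) < f := by exact_mod_cast hf
  obtain ⟨c, hc, m, s₁, hs₁⟩ := master k D N (1 / (4000 * f)) (by positivity)
  obtain ⟨s₂, hs₂⟩ := out_adm f hf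
  refine ⟨c, hc, max s₁ s₂, fun s hs o a ha W hW hWN y => ?_⟩
  have h := (hs₁ s (le_trans (le_max_left _ _) hs) (fun j => expo (o j) s) (fun j => zE (a j))
    (fun j => hs₂ s (le_trans (le_max_right _ _) hs) (o j) (a j) (ha j)) W hW hWN y).1
  have h1 : ∏ j, (((expo (o j) s).powerset.card : ℕ) : ℝ) = ∏ j, (2 : ℝ) ^ (expo (o j) s).card := by
    refine Finset.prod_congr rfl fun j _ => ?_
    rw [Finset.card_powerset]
    push_cast
    rfl
  rw [h1] at h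
  simp only [dir_eq]
  exact h

end Pool.Agent.Y918.QC
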